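import Pool.Agent.P.MP_838544_lc.Rich

/-!
A potential that measures how far a set of pointer vectors is from being spread, with a larger
weight inside a region; it can be halved by halving the region. Also a cleaning lemma.
-/

namespace Pool.Agent.P.MP_838544_lc

open Finset

variable {V β : Type} [Fintype V] [DecidableEq V] [Fintype β] [DecidableEq β]

/-- The vectors of `X` that agree with `x₀` on `S`. -/
def cyl (X : Finset (V → β)) (S : Finset V) (x₀ : V → β) : Finset (V → β) :=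
  X.filter fun x => ∀ v ∈ S, x v = x₀ v

omit [Fintype β] in
theorem card_cyl (X : Finset (V → β)) (S : Finset V) (x₀ : V → β) :
    (cyl X S x₀).card = cnt X S x₀ := rfl

omit [Fintype β] in
theorem cyl_subset (X : Finset (V → β)) (S : Finset V) (x₀ : V → β) : cyl X S x₀ ⊆ X :=
  Finset.filter_subset _ _

omit [Fintype β] in
theorem cnt_mono {X X' : Finset (V → β)} (h : X' ⊆ X) (S : Finset V) (x₀ : V → β) :
    cnt X' S x₀ ≤ cnt X S x₀ :=
  Finset.card_le_card (Finset.filter_subset_filter _ h)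

/-- All vectors of `X` agree on `I`. -/
def Agree (X : Finset (V → β)) (I : Finset V) : Prop := ∀ x ∈ X, ∀ x' ∈ X, ∀ v ∈ I, x v = x' v

omit [Fintype β] in
theorem agree_cyl (X : Finset (V → β)) (S : Finset V) (x₀ : V → β) : Agree (cyl X S x₀) S :=
  fun _ hx _ hx' v hv =>
    ((Finset.mem_filter.1 hx).2 v hv).trans ((Finset.mem_filter.1 hx').2 v hv).symm

omit [Fintype β] [Fintype V] [DecidableEq V] [DecidableEq β] in
theorem Agree.mono {X X' : Finset (V → β)} {I : Finset V} (h : Agree X I) (hX : X' ⊆ X) :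
    Agree X' I := fun x hx x' hx' => h x (hX hx) x' (hX hx')

omit [Fintype β] in
theorem Agree.cnt_eq {X : Finset (V → β)} {I : Finset V} (h : Agree X I) {x : V → β}
    (hx : x ∈ X) : cnt X I x = X.card := by
  rw [cnt, Finset.filter_true_of_mem]
  exact fun x' hx' => h x' hx' x hx

/-- The potential of `X` over the fixed set `I` in the region `P` is at most `Δ`. -/
def Pot (κ l : ℕ) (X : Finset (V → β)) (I P : Finset V) (Δ : ℕ) : Prop :=
  ∀ S, I ⊆ S → ∀ x₀, cnt X S x₀ * κ ^ S.card * l ^ (S ∩ P).card ≤ Δ * κ ^ I.card * X.card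

variable {κ l : ℕ}

omit [Fintype β] in
theorem Pot.sub {X X' : Finset (V → β)} {I P : Finset V} {Δ c : ℕ} (h : Pot κ l X I P Δ)
    (hX : X' ⊆ X) (hc : X.card ≤ c * X'.card) : Pot κ l X' I P (c * Δ) := by
  intro S hS x₀
  calc _ ≤ cnt X S x₀ * κ ^ S.card * l ^ (S ∩ P).card := by
        gcongr
        exact cnt_mono hX S x₀
    _ ≤ Δ * κ ^ I.card * X.card := h S hS x₀
    _ ≤ Δ * κ ^ I.card * (c * X'.card) := by gcongr
    _ = _ := by ring

omit [Fintype β] in
theorem Pot.card_le {X : Finset (V → β)} {I P : Finset V} {Δ b : ℕ} (h : Pot κ l X I P Δ)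
    (hX : X.Nonempty) (hI : Agree X I) (hκ : 0 < κ) (hl : 0 < l) (hb : Δ < l ^ (b + 1)) :
    (I ∩ P).card ≤ b := by
  obtain ⟨x, hx⟩ := hX
  have h1 := h I subset_rfl x
  rw [hI.cnt_eq hx] at h1
  have h2 : 0 < X.card * κ ^ I.card := Nat.mul_pos (Finset.card_pos.2 ⟨x, hx⟩) (pow_pos hκ _)
  have h3 : l ^ (I ∩ P).card ≤ Δ := by
    refine Nat.le_of_mul_le_mul_left ?_ h2
    calc _ ≤ Δ * κ ^ I.card * X.card := h1
      _ = _ := by ring
  by_contra hc
  have := Nat.pow_le_pow_right hl (show b + 1 ≤ (I ∩ P).card by omega)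
  omega

omit [Fintype β] in
theorem Pot.halve {X : Finset (V → β)} {I P L R : Finset V} {E : ℕ} (h : Pot κ l X I P (E * E))
    (hl : 0 < l) (hL : L ⊆ P) (hR : R ⊆ P) (hd : Disjoint L R) :
    Pot κ l X I L E ∨ ∃ T x₀, I ⊆ T ∧ (cyl X T x₀).Nonempty ∧ Pot κ l (cyl X T x₀) T R E := by
  by_cases h0 : Pot κ l X I L E
  · exact Or.inl h0
  right
  simp only [Pot, not_forall, not_le] at h0
  obtain ⟨T, hT, x₀, h0⟩ := h0
  refine ⟨T, x₀, hT, ?_, ?_⟩
  · rw [← Finset.card_pos, card_cyl]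
    by_contra hc
    have : cnt X T x₀ = 0 := by omega
    simp [this] at h0
  · intro U hU x₁
    have h1 := h U (hT.trans hU) x₁
    have h2 : (T ∩ L).card + (U ∩ R).card ≤ (U ∩ P).card := by
      rw [← Finset.card_union_of_disjoint
        (hd.mono Finset.inter_subset_right Finset.inter_subset_right)]
      refine Finset.card_le_card (Finset.union_subset ?_ ?_)
      · exact Finset.inter_subset_inter hU hL
      · exact Finset.inter_subset_inter subset_rfl hR
    have h3 : l ^ (T ∩ L).card * l ^ (U ∩ R).card ≤ l ^ (U ∩ P).card := by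
      rw [← pow_add]
      exact Nat.pow_le_pow_right hl h2
    refine Nat.le_of_mul_le_mul_right ?_ (pow_pos hl (T ∩ L).card)
    calc cnt (cyl X T x₀) U x₁ * κ ^ U.card * l ^ (U ∩ R).card * l ^ (T ∩ L).card
        = cnt (cyl X T x₀) U x₁ * κ ^ U.card * (l ^ (T ∩ L).card * l ^ (U ∩ R).card) := by ring
      _ ≤ cnt X U x₁ * κ ^ U.card * l ^ (U ∩ P).card := by
          gcongr
          exact cnt_mono (cyl_subset _ _ _) U x₁
      _ ≤ E * E * κ ^ I.card * X.card := h1
      _ = E * (E * κ ^ I.card * X.card) := by ring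
      _ ≤ E * (cnt X T x₀ * κ ^ T.card * l ^ (T ∩ L).card) := Nat.mul_le_mul_left _ h0.le
      _ = _ := by rw [card_cyl]; ring

theorem Pot.restore {X : Finset (V → β)} {I P : Finset V} {Δ : ℕ} (h : Pot κ l X I P Δ)
    (hX : X.Nonempty) (hI : Agree X I) (hκ : 0 < κ) :
    ∃ S x₀, I ⊆ S ∧ (cyl X S x₀).Nonempty ∧ Pot κ l (cyl X S x₀) S ∅ 1 ∧
      Pot κ l (cyl X S x₀) S P Δ := by
  obtain ⟨x, hx⟩ := hX
  obtain ⟨⟨S, x₀⟩, hS, hmax⟩ := Finset.exists_max_image
    ((univ : Finset (Finset V × (V → β))).filter fun q => I ⊆ q.1)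
    (fun q => cnt X q.1 q.2 * κ ^ q.1.card) ⟨(I, x), by simp⟩
  have hS' : I ⊆ S := (Finset.mem_filter.1 hS).2
  have hm : ∀ U x₁, I ⊆ U → cnt X U x₁ * κ ^ U.card ≤ cnt X S x₀ * κ ^ S.card :=
    fun U x₁ hU => hmax (U, x₁) (by simpa using hU)
  have h1 := hm I x subset_rfl
  rw [hI.cnt_eq hx] at h1
  refine ⟨S, x₀, hS', ?_, ?_, ?_⟩
  · rw [← Finset.card_pos, card_cyl]
    have h2 : 0 < X.card * κ ^ I.card := Nat.mul_pos (Finset.card_pos.2 ⟨x, hx⟩) (pow_pos hκ _)
    by_contra hc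
    have : cnt X S x₀ = 0 := by omega
    rw [this] at h1
    omega
  · intro U hU x₁
    rw [Finset.inter_empty, Finset.card_empty, pow_zero, mul_one, one_mul, card_cyl,
      mul_comm (κ ^ S.card)]
    exact le_trans (Nat.mul_le_mul_right _ (cnt_mono (cyl_subset _ _ _) U x₁))
      (hm U x₁ (hS'.trans hU))
  · intro U hU x₁
    calc _ ≤ cnt X U x₁ * κ ^ U.card * l ^ (U ∩ P).card := by
          gcongr
          exact cnt_mono (cyl_subset _ _ _) U x₁
      _ ≤ Δ * κ ^ I.card * X.card := h U (hS'.trans hU) x₁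
      _ = Δ * (X.card * κ ^ I.card) := by ring
      _ ≤ Δ * (cnt X S x₀ * κ ^ S.card) := Nat.mul_le_mul_left _ h1
      _ = _ := by rw [card_cyl]; ring

theorem pot_univ {Δ : ℕ} (P : Finset V) (hl : 0 < l) (hM : κ * l ≤ Fintype.card β) (hΔ : 0 < Δ) :
    Pot κ l (univ : Finset (V → β)) ∅ P Δ := by
  intro S _ x₀
  have h := card_agree S x₀
  rw [Finset.card_empty, pow_zero, mul_one, Finset.card_univ, Fintype.card_fun, ← h]
  calc cnt univ S x₀ * κ ^ S.card * l ^ (S ∩ P).card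
      ≤ cnt univ S x₀ * κ ^ S.card * l ^ S.card := by
        exact Nat.mul_le_mul_left _
          (Nat.pow_le_pow_right hl (Finset.card_le_card Finset.inter_subset_left))
    _ = cnt univ S x₀ * (κ * l) ^ S.card := by rw [mul_pow]; ring
    _ ≤ cnt univ S x₀ * Fintype.card β ^ S.card := by gcongr
    _ ≤ _ := Nat.le_mul_of_pos_left _ hΔ

omit [Fintype β] in
/-- A quarter of a spread set is spread outside the fixed set. -/
theorem Pot.spread {X X' : Finset (V → β)} {I : Finset V} (h : Pot κ l X I ∅ 1) (hI : Agree X I)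
    (hκ : 0 < κ) (hX : X' ⊆ X) (hc : X.card ≤ 4 * X'.card) :
    ∀ T ⊆ Iᶜ, ∀ x₀, cnt X' T x₀ * κ ^ T.card ≤ 4 * X'.card := by
  intro T hT x₀
  rcases (cyl X' T x₀).eq_empty_or_nonempty with h0 | ⟨x₁, h0⟩
  · rw [← card_cyl, h0]
    simp
  have h0' := Finset.mem_filter.1 h0
  have h1 := h (I ∪ T) Finset.subset_union_left x₁
  have hd : Disjoint I T := Finset.disjoint_left.2 fun v hv hv' => by simpa [hv] using hT hv'
  rw [Finset.inter_empty, Finset.card_empty, pow_zero, mul_one, one_mul,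
    Finset.card_union_of_disjoint hd, pow_add] at h1
  have h2 : cnt X' T x₀ ≤ cnt X (I ∪ T) x₁ := by
    refine Finset.card_le_card fun x hx => ?_
    have hx' := Finset.mem_filter.1 hx
    refine Finset.mem_filter.2 ⟨hX hx'.1, fun v hv => ?_⟩
    rcases Finset.mem_union.1 hv with hv | hv
    · exact hI x (hX hx'.1) x₁ (hX h0'.1) v hv
    · rw [hx'.2 v hv, h0'.2 v hv]
  refine le_trans (Nat.le_of_mul_le_mul_left ?_ (pow_pos hκ I.card)) hc
  calc κ ^ I.card * (cnt X' T x₀ * κ ^ T.card) ≤ κ ^ I.card * (cnt X (I ∪ T) x₁ * κ ^ T.card) := by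
        gcongr
    _ = cnt X (I ∪ T) x₁ * (κ ^ I.card * κ ^ T.card) := by ring
    _ ≤ _ := h1

/-- Cleaning: after removing few elements, every set of a family is missed or met often. -/
theorem clean {Ω ι : Type} [DecidableEq Ω] [DecidableEq ι] (θ : ℕ) (p : ι → Finset Ω)
    (n : ℕ) : ∀ (J : Finset ι) (Y : Finset Ω), J.card = n → ∃ Y' ⊆ Y, Y.card ≤ Y'.card + n * θ ∧
      ∀ j ∈ J, (Y' ∩ p j).Nonempty → θ < (Y' ∩ p j).card := by
  induction n with
  | zero =>
    intro J Y hJ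
    rw [Finset.card_eq_zero] at hJ
    exact ⟨Y, subset_rfl, by simp, by simp [hJ]⟩
  | succ n ih =>
    intro J Y hJ
    by_cases h : ∀ j ∈ J, (Y ∩ p j).Nonempty → θ < (Y ∩ p j).card
    · exact ⟨Y, subset_rfl, Nat.le_add_right _ _, h⟩
    push Not at h
    obtain ⟨j, hj, -, h⟩ := h
    obtain ⟨Y', h1, h2, h3⟩ := ih (J.erase j) (Y \ p j)
      (by rw [Finset.card_erase_of_mem hj, hJ]; rfl)
    refine ⟨Y', h1.trans Finset.sdiff_subset, ?_, fun i hi hne => ?_⟩
    · have := Finset.card_sdiff_add_card_inter Y (p j)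
      nlinarith
    · by_cases e : i = j
      · subst e
        obtain ⟨y, hy⟩ := hne
        exact absurd (Finset.mem_inter.1 hy).2
          (Finset.mem_sdiff.1 (h1 (Finset.mem_inter.1 hy).1)).2
      · exact h3 i (Finset.mem_erase.2 ⟨e, hi⟩) hne

theorem clean' {Ω ι : Type} [DecidableEq Ω] [Fintype ι] [Nonempty ι] (p : ι → Finset Ω)
    (Y : Finset Ω) : ∃ Y' ⊆ Y, Y.card ≤ 2 * Y'.card ∧
      ∀ j, (Y' ∩ p j).Nonempty → Y.card ≤ 2 * Fintype.card ι * (Y' ∩ p j).card := by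
  classical
  have hK : 0 < 2 * Fintype.card ι := Nat.mul_pos two_pos Fintype.card_pos
  obtain ⟨Y', h1, h2, h3⟩ := clean (Y.card / (2 * Fintype.card ι)) p (Fintype.card ι) univ Y rfl
  refine ⟨Y', h1, ?_, fun j hj => ?_⟩
  · have := Nat.mul_div_le Y.card (2 * Fintype.card ι)
    nlinarith
  · have h4 := h3 j (mem_univ _) hj
    have h5 := Nat.lt_mul_div_succ Y.card hK
    exact h5.le.trans (Nat.mul_le_mul_left _ h4)

end Pool.Agent.P.MP_838544_lc
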