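import Pool.Agent.P.MP_838544_lc.Tseitin
import Pool.Agent.P.MP_838544_lc.Pot

/-!
The recursion over time intervals and regions.
-/

namespace Pool.Agent.P.MP_838544_lc

open Finset

/-- Pointer vectors. -/
abbrev Row (r k M : ℕ) := Pos r k → Fin M

/-- Tables of views. -/
abbrev Col (r k M : ℕ) := Pos r k × Fin M → Alph k

variable {r k M w : ℕ}

/-- The views that the pointer vector `x` selects in the table `y`. -/
def zz (x : Row r k M) (y : Col r k M) : Pos r k → Alph k := fun v => y (v, x v)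

/-- In row `x`, membership in `R` is refuted on a set that is small inside `P`. -/
def Low (o : Pos r k) (b : ℕ) (Y : Finset (Col r k M)) (P : Finset (Pos r k))
    (R : Row r k M → Col r k M → Prop) (x : Row r k M) : Prop :=
  ∃ S : Finset (Pos r k), (S ∩ P).card ≤ b ∧ ∀ y ∈ Y, R x y → ¬ High o P S (zz x y)

theorem Low.mono {o : Pos r k} {b b' : ℕ} {Y Y' : Finset (Col r k M)} {P P' : Finset (Pos r k)}
    {R R' : Row r k M → Col r k M → Prop} {x : Row r k M} (h : Low o b Y P R x) (hb : b ≤ b')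
    (hY : Y' ⊆ Y) (hP : P' ⊆ P) (hR : ∀ y, R' x y → R x y) : Low o b' Y' P' R' x := by
  obtain ⟨S, h1, h2⟩ := h
  refine ⟨S, le_trans (Finset.card_le_card (Finset.inter_subset_inter subset_rfl hP))
    (h1.trans hb), fun y hy hr hh => h2 y (hY hy) (hR y hr) ?_⟩
  exact hh.mono hP subset_rfl fun _ _ => rfl

theorem Low.union {o : Pos r k} {b : ℕ} {Y : Finset (Col r k M)} {P : Finset (Pos r k)}
    {R R₁ R₂ : Row r k M → Col r k M → Prop} {x : Row r k M} (h₁ : Low o b Y P R₁ x)
    (h₂ : Low o b Y P R₂ x) (hR : ∀ y, R x y → R₁ x y ∨ R₂ x y) : Low o (2 * b) Y P R x := by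
  obtain ⟨S₁, a1, a2⟩ := h₁
  obtain ⟨S₂, b1, b2⟩ := h₂
  refine ⟨S₁ ∪ S₂, ?_, fun y hy hr hh => ?_⟩
  · rw [Finset.union_inter_distrib_right]
    have := Finset.card_union_le (S₁ ∩ P) (S₂ ∩ P)
    omega
  · rcases hR y hr with h | h
    · exact a2 y hy h (hh.mono subset_rfl Finset.subset_union_left fun _ _ => rfl)
    · exact b2 y hy h (hh.mono subset_rfl Finset.subset_union_right fun _ _ => rfl)

/-- Less than a quarter of a spread set of rows is low for a rectangle that contains it. -/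
theorem few_low {o : Pos r k} {κ l b G p q : ℕ} (hκ : 0 < κ) (hG : 0 < G) (hb : 3 * b < k)
    (h5 : 5 * (r * k) * (G * Fintype.card (Alph k)) ≤ κ)
    {X X' : Finset (Row r k M)} {Y : Finset (Col r k M)} {I : Finset (Pos r k)}
    {γ : Pos r k → Alph k} {R : Row r k M → Col r k M → Prop}
    (hne : X.Nonempty) (hI : Agree X I) (hsp : Pot κ l X I ∅ 1)
    (hfix : ∀ x ∈ X, ∀ y ∈ Y, ∀ v ∈ I, y (v, x v) = γ v)
    (hIb : (I ∩ region r k p q).card ≤ b) (hhigh : High o (region r k p q) I γ)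
    (hR : ∀ x ∈ X, ∀ y ∈ Y, R x y) (hbig : Fintype.card (Col r k M) < 2 ^ G * Y.card)
    (hX' : X' ⊆ X) (hlow : ∀ x ∈ X', Low o (2 * b) Y (region r k p q) R x) :
    4 * X'.card < X.card := by
  classical
  by_contra hc
  have hc' : X.card ≤ 4 * X'.card := by omega
  have hne' : X'.Nonempty := by
    rw [← Finset.card_pos] at hne ⊢
    omega
  have hex : ∀ x, ∃ π : Pos r k → Alph k, x ∈ X' → (∀ u ∈ I, π u = γ u) ∧
      ∀ y ∈ Y, zz x y ≠ π := by
    intro x
    by_cases hx : x ∈ X'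
    · obtain ⟨S, h1, h2⟩ := hlow x hx
      have h3 : ((I ∪ S) ∩ region r k p q).card < k := by
        rw [Finset.union_inter_distrib_right]
        have := Finset.card_union_le (I ∩ region r k p q) (S ∩ region r k p q)
        omega
      obtain ⟨π, h4, h5⟩ := hhigh.extend Finset.subset_union_left h3
      refine ⟨π, fun _ => ⟨h4, fun y hy e => h2 y hy (hR x (hX' hx) y hy) ?_⟩⟩
      rw [e]
      exact h5.mono subset_rfl Finset.subset_union_right fun _ _ => rfl
    · exact ⟨γ, fun h => absurd h hx⟩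
  choose π hπ using hex
  have hF : (Iᶜ : Finset (Pos r k)).card ≤ r * k := by
    have := Finset.card_le_univ (Iᶜ : Finset (Pos r k))
    simpa using this
  have hm := miss_exp X' hne' Iᶜ κ G hκ hG (hsp.spread hI hκ hX' hc')
    (le_trans (by gcongr) h5) π
  have hsub : Y ⊆ univ.filter fun y : Col r k M => ∀ x ∈ X', ∃ v ∈ Iᶜ, y (v, x v) ≠ π x v := by
    intro y hy
    refine Finset.mem_filter.2 ⟨mem_univ _, fun x hx => ?_⟩
    by_contra hcon
    push Not at hcon
    refine (hπ x hx).2 y hy (funext fun v => ?_)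
    by_cases hv : v ∈ I
    · rw [(hπ x hx).1 v hv]
      exact hfix x (hX' hx) y hy v hv
    · exact hcon v (Finset.mem_compl.2 hv)
  have h6 := Nat.mul_le_mul_left (2 ^ G) (Finset.card_le_card hsub)
  rw [Fintype.card_fun] at hbig
  exact absurd (h6.trans hm) (not_le.2 hbig)

/-- The set `R` lies in the set of a register at time `t` or exhibits a violated edge. -/
def Src (o : Pos r k) (Q : ℕ → Fin w → Row r k M → Col r k M → Prop)
    (t : ℕ) (R : Row r k M → Col r k M → Prop) : Prop :=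
  (∃ j, ∀ x y, R x y → Q t j x y) ∨
    ∃ u v, ∀ x y, R x y → Nb u v ∧ ¬ Compat o u (zz x y u) v (zz x y v)

theorem Src.low {o : Pos r k} {Q : ℕ → Fin w → Row r k M → Col r k M → Prop}
    {t b : ℕ} {R : Row r k M → Col r k M → Prop}
    (h : Src o Q t R) (hb : 2 ≤ b) {Y : Finset (Col r k M)} {P : Finset (Pos r k)}
    {x : Row r k M} (hl : ∀ i, Low o b Y P (Q t i) x) :
    Low o b Y P R x := by
  rcases h with ⟨j, h⟩ | ⟨u, v, h⟩
  · exact (hl j).mono le_rfl subset_rfl subset_rfl fun y => h x y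
  · refine ⟨{u, v}, le_trans (Finset.card_le_card Finset.inter_subset_left)
      (Finset.card_le_two.trans hb), fun y _ hr ⟨v₀, _, hh⟩ => ?_⟩
    exact (h x y hr).2 (hh.compat (by simp) (by simp) (h x y hr).1)

/-- The index set of the family used for cleaning. -/
abbrev Idx (r k M w B : ℕ) :=
  Fin B × Fin w × Finset (Pos r k) × Row r k M × (Pos r k → Alph k)

theorem exists_switch (p : ℕ → Prop) (B : ℕ) (h0 : p 0) (hB : ¬ p B) :
    ∃ j < B, p j ∧ ¬ p (j + 1) := by
  induction B with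
  | zero => exact absurd h0 hB
  | succ n ih =>
    by_cases h : p n
    · exact ⟨n, Nat.lt_succ_self n, h, hB⟩
    · obtain ⟨j, hj, h'⟩ := ih h
      exact ⟨j, by omega, h'⟩

theorem core (o : Pos r k) {κ l b B G : ℕ} (hκ : 0 < κ) (hl : 0 < l) (hG : 0 < G) (hB : 0 < B)
    (hb : 3 * b < k) (hb2 : 2 ≤ b) (h5 : 5 * (r * k) * (G * Fintype.card (Alph k)) ≤ κ)
    (hΔ : 2 * (B * w) ^ 2 < l ^ (b + 1))
    (Q : ℕ → Fin w → Row r k M → Col r k M → Prop)
    (htri : ∀ t i (X : Finset (Row r k M)), X.Nonempty →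
      ∃ x ∈ X, ∀ x' ∈ X, ∀ y, Q t i x y → Q t i x' y)
    (hstep : ∀ t i, ∃ R₁ R₂ : Row r k M → Col r k M → Prop, Src o Q t R₁ ∧
      Src o Q t R₂ ∧ ∀ x y, Q (t + 1) i x y → R₁ x y ∨ R₂ x y)
    (h : ℕ) : ∀ (p t₁ t₂ : ℕ) (X : Finset (Row r k M)) (Y : Finset (Col r k M))
      (I : Finset (Pos r k)) (γ : Pos r k → Alph k) (g : Fin w),
      p + 2 ^ h ≤ r → t₁ ≤ t₂ → t₂ ≤ t₁ + B ^ h → X.Nonempty → Agree X I → Pot κ l X I ∅ 1 →
      Pot κ l X I (region r k p (p + 2 ^ h)) (2 * (B * w) ^ 2) →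
      (∀ x ∈ X, ∀ y ∈ Y, ∀ v ∈ I, y (v, x v) = γ v) →
      High o (region r k p (p + 2 ^ h)) I γ → (∀ x ∈ X, ∀ y ∈ Y, Q t₂ g x y) →
      (∀ x ∈ X, ∀ i, Low o b Y (region r k p (p + 2 ^ h)) (Q t₁ i) x) →
      Fintype.card (Col r k M) * (2 * Fintype.card (Idx r k M w B)) ^ h < 2 ^ G * Y.card →
      False := by
  classical
  induction h with
  | zero =>
    intro p t₁ t₂ X Y I γ g hp ht1 ht2 hne hI hsp hpot hfix hhigh hpos hlow hbig
    have hIb := hpot.card_le hne hI hκ hl hΔ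
    have key := few_low (R := Q t₂ g) hκ hG hb h5 hne hI hsp hfix hIb
      hhigh hpos (by simpa using hbig) subset_rfl ?_
    · omega
    intro x hx
    rcases Nat.eq_or_lt_of_le ht1 with e | e
    · subst e
      exact (hlow x hx g).mono (by omega) subset_rfl subset_rfl fun _ h => h
    · have e' : t₂ = t₁ + 1 := by simp at ht2; omega
      subst e'
      obtain ⟨R₁, R₂, s1, s2, s3⟩ := hstep t₁ g
      exact (s1.low hb2 (hlow x hx)).union (s2.low hb2 (hlow x hx)) fun y h => s3 x y h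
  | succ h ih =>
    intro p t₁ t₂ X Y I γ g hp ht1 ht2 hne hI hsp hpot hfix hhigh hpos hlow hbig
    have hIb := hpot.card_le hne hI hκ hl hΔ
    have h2 : 2 ^ (h + 1) = 2 ^ h + 2 ^ h := by ring
    have h2pos : 0 < 2 ^ h := by positivity
    obtain ⟨x₀, hx₀⟩ := id hne
    have : Nonempty (Idx r k M w B) := ⟨⟨⟨0, hB⟩, g, ∅, x₀, γ⟩⟩
    set D := 2 * Fintype.card (Idx r k M w B) with hD
    have hD2 : 2 ≤ D := by
      have := Fintype.card_pos (α := Idx r k M w B)
      omega
    let s : ℕ → ℕ := fun j => min (t₁ + j * B ^ h) t₂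
    have hs0 : s 0 = t₁ := by simp [s, ht1]
    have hsB : s B = t₂ := by
      have : B ^ (h + 1) = B * B ^ h := by ring
      simp only [s]
      omega
    let fam : Idx r k M w B → Finset (Col r k M) := fun q => univ.filter fun y =>
      Q (s (q.1.val + 1)) q.2.1 q.2.2.2.1 y ∧ ∀ v ∈ q.2.2.1, y (v, q.2.2.2.1 v) = q.2.2.2.2 v
    obtain ⟨Y', hY', hY2, hYfam⟩ := clean' fam Y
    rw [← hD] at hYfam
    have hbig' : Fintype.card (Col r k M) < 2 ^ G * Y'.card := by
      have a1 : 2 ≤ D ^ (h + 1) := le_trans hD2 (Nat.le_self_pow (by omega) D)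
      have a2 := Nat.mul_le_mul_left (Fintype.card (Col r k M)) a1
      have a3 := Nat.mul_le_mul_left (2 ^ G) hY2
      nlinarith
    -- few rows are low at the end, in either half
    have few : ∀ p', p ≤ p' → p' + 2 ^ h ≤ p + 2 ^ (h + 1) →
        4 * (X.filter fun x => Low o b Y' (region r k p' (p' + 2 ^ h))
          (Q t₂ g) x).card < X.card := by
      intro p' a1 a2
      have hsub : region r k p' (p' + 2 ^ h) ⊆ region r k p (p + 2 ^ (h + 1)) := by
        intro v hv
        rw [mem_region] at hv ⊢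
        omega
      refine few_low (R := Q t₂ g) hκ hG hb h5 hne hI hsp
        (fun x hx y hy => hfix x hx y (hY' hy))
        (le_trans (Finset.card_le_card (Finset.inter_subset_inter subset_rfl hsub)) hIb)
        (hhigh.shrink (by omega) a1 (by omega) a2 hp)
        (fun x hx y hy => hpos x hx y (hY' hy)) hbig' (Finset.filter_subset _ _) ?_
      intro x hx
      exact (Finset.mem_filter.1 hx).2.mono (by omega) subset_rfl subset_rfl fun _ h => h
    let X₀ := X.filter fun x =>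
      ¬ Low o b Y' (region r k p (p + 2 ^ h)) (Q t₂ g) x ∧
      ¬ Low o b Y' (region r k (p + 2 ^ h) (p + 2 ^ h + 2 ^ h))
        (Q t₂ g) x
    have hX₀ : X₀ ⊆ X := Finset.filter_subset _ _
    have hX₀c : X.card ≤ 2 * X₀.card := by
      have a1 := few p le_rfl (by omega)
      have a2 := few (p + 2 ^ h) (by omega) (by omega)
      have a3 : X ⊆ X₀ ∪ ((X.filter fun x => Low o b Y' (region r k p (p + 2 ^ h))
          (Q t₂ g) x) ∪ X.filter fun x =>
          Low o b Y' (region r k (p + 2 ^ h) (p + 2 ^ h + 2 ^ h))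
          (Q t₂ g) x) := by
        intro x hx
        simp only [X₀, Finset.mem_union, Finset.mem_filter]
        tauto
      have a4 := (Finset.card_le_card a3).trans ((Finset.card_union_le _ _).trans
        (Nat.add_le_add_left (Finset.card_union_le _ _) _))
      omega
    have hX₀ne : X₀.Nonempty := by
      rw [← Finset.card_pos] at hne ⊢
      omega
    have hpot₀ : Pot κ l X₀ I (region r k p (p + 2 ^ (h + 1))) ((2 * (B * w)) * (2 * (B * w))) := by
      have := hpot.sub hX₀ hX₀c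
      rwa [show 2 * (2 * (B * w) ^ 2) = (2 * (B * w)) * (2 * (B * w)) by ring] at this
    -- choose a half
    obtain ⟨p', X₁, T, a1, a2, hX₁, hX₁ne, hT, hpot₁, hend⟩ : ∃ p' X₁ T, p ≤ p' ∧
        p' + 2 ^ h ≤ p + 2 ^ (h + 1) ∧ X₁ ⊆ X ∧ X₁.Nonempty ∧ Agree X₁ T ∧
        Pot κ l X₁ T (region r k p' (p' + 2 ^ h)) (2 * (B * w)) ∧
        ∀ x ∈ X₁, ¬ Low o b Y' (region r k p' (p' + 2 ^ h))
          (Q t₂ g) x := by
      rcases hpot₀.halve (L := region r k p (p + 2 ^ h))
        (R := region r k (p + 2 ^ h) (p + 2 ^ h + 2 ^ h)) hl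
        (fun v hv => by rw [mem_region] at hv ⊢; omega)
        (fun v hv => by rw [mem_region] at hv ⊢; omega)
        (Finset.disjoint_left.2 fun v hv hv' => by rw [mem_region] at hv hv'; omega)
        with c | ⟨T, x₁, -, c2, c3⟩
      · exact ⟨p, X₀, I, le_rfl, by omega, hX₀, hX₀ne, hI.mono hX₀, c,
          fun x hx => (Finset.mem_filter.1 hx).2.1⟩
      · exact ⟨p + 2 ^ h, _, T, by omega, by omega, (cyl_subset _ _ _).trans hX₀, c2,
          agree_cyl _ _ _, c3, fun x hx => (Finset.mem_filter.1 (cyl_subset _ _ _ hx)).2.2⟩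
    set P' := region r k p' (p' + 2 ^ h) with hP'
    have hsub : P' ⊆ region r k p (p + 2 ^ (h + 1)) := by
      intro v hv
      rw [hP', mem_region] at hv
      rw [mem_region]
      omega
    -- choose a time interval and a register
    let sw : Fin B × Fin w → Finset (Row r k M) := fun q => X₁.filter fun x =>
      (∀ i, Low o b Y' P' (Q (s q.1.val) i) x) ∧
      ¬ Low o b Y' P' (Q (s (q.1.val + 1)) q.2) x
    obtain ⟨⟨j, i⟩, -, hq⟩ : ∃ q ∈ (univ : Finset (Fin B × Fin w)),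
        X₁.card ≤ B * w * (sw q).card := by
      refine Finset.exists_le_of_sum_le ⟨(⟨0, hB⟩, g), mem_univ _⟩ ?_
      rw [← Finset.mul_sum, Finset.sum_const, Finset.card_univ, Fintype.card_prod,
        Fintype.card_fin, Fintype.card_fin, smul_eq_mul]
      refine Nat.mul_le_mul_left _ (le_trans (Finset.card_le_card ?_) Finset.card_biUnion_le)
      intro x hx
      obtain ⟨j, hj, b1, b2⟩ := exists_switch
        (fun j => ∀ i, Low o b Y' P' (Q (s j) i) x) B
        (fun i => by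
          rw [hs0]
          exact (hlow x (hX₁ hx) i).mono le_rfl hY' hsub fun _ h => h)
        (fun hh => hend x hx (by have := hh g; rwa [hsB] at this))
      obtain ⟨i, hi⟩ := not_forall.1 b2
      exact Finset.mem_biUnion.2 ⟨(⟨j, hj⟩, i), mem_univ _, Finset.mem_filter.2 ⟨hx, b1, hi⟩⟩
    have hswsub : sw (j, i) ⊆ X₁ := Finset.filter_subset _ _
    have hswne : (sw (j, i)).Nonempty := by
      rw [← Finset.card_pos] at hX₁ne ⊢
      by_contra hc
      have : (sw (j, i)).card = 0 := by omega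
      rw [this] at hq
      omega
    have hpot₂ : Pot κ l (sw (j, i)) T P' (2 * (B * w) ^ 2) := by
      have := hpot₁.sub hswsub hq
      rwa [show B * w * (2 * (B * w)) = 2 * (B * w) ^ 2 by ring] at this
    obtain ⟨S, x₂, -, hne₂, hsp₂, hpot₃⟩ := hpot₂.restore hswne (hT.mono hswsub) hκ
    have hSb := hpot₃.card_le hne₂ (agree_cyl _ _ _) hκ hl hΔ
    have hmem : ∀ x ∈ cyl (sw (j, i)) S x₂,
        (∀ i', Low o b Y' P' (Q (s j.val) i') x) ∧
        ¬ Low o b Y' P' (Q (s (j.val + 1)) i) x :=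
      fun x hx => (Finset.mem_filter.1 (cyl_subset _ _ _ hx)).2
    obtain ⟨x₃, hx₃, hmin⟩ := htri (s (j.val + 1)) i _ hne₂
    obtain ⟨y₃, hy₃, c2, c3⟩ : ∃ y ∈ Y', Q (s (j.val + 1)) i x₃ y ∧ High o P' S (zz x₃ y) := by
      by_contra hc
      push Not at hc
      exact (hmem x₃ hx₃).2 ⟨S, hSb, fun y hy hr => hc y hy hr⟩
    have hy₃' : y₃ ∈ Y' ∩ fam (j, i, S, x₃, zz x₃ y₃) :=
      Finset.mem_inter.2 ⟨hy₃, Finset.mem_filter.2 ⟨mem_univ _, c2, fun _ _ => rfl⟩⟩
    have hlarge := hYfam _ ⟨y₃, hy₃'⟩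
    refine ih p' (s j.val) (s (j.val + 1)) (cyl (sw (j, i)) S x₂)
      (Y' ∩ fam (j, i, S, x₃, zz x₃ y₃)) S (zz x₃ y₃) i (by omega) ?_ ?_ hne₂ (agree_cyl _ _ _)
      hsp₂ hpot₃ ?_ c3 ?_ ?_ ?_
    · simp only [s]
      rw [add_mul, one_mul]
      omega
    · simp only [s]
      rw [add_mul, one_mul]
      omega
    · intro x hx y hy v hv
      rw [agree_cyl _ _ _ x hx x₃ hx₃ v hv]
      exact (Finset.mem_filter.1 (Finset.mem_inter.1 hy).2).2.2 v hv
    · intro x hx y hy
      exact hmin x hx y (Finset.mem_filter.1 (Finset.mem_inter.1 hy).2).2.1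
    · intro x hx i'
      exact ((hmem x hx).1 i').mono le_rfl Finset.inter_subset_left subset_rfl fun _ h => h
    · refine Nat.lt_of_mul_lt_mul_right (a := D) ?_
      calc Fintype.card (Col r k M) * D ^ h * D = Fintype.card (Col r k M) * D ^ (h + 1) := by ring
        _ < 2 ^ G * Y.card := hbig
        _ ≤ 2 ^ G * (D * (Y' ∩ fam (j, i, S, x₃, zz x₃ y₃)).card) :=
            Nat.mul_le_mul_left _ hlarge
        _ = _ := by ring

end Pool.Agent.P.MP_838544_lc
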