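import Mathlib.Combinatorics.SimpleGraph.Basic
import Mathlib.Data.Real.Basic

/-!
Monotone real circuits of bounded width that read the adjacency relation of a graph, and the problem
Chained Multicoloured Clique.
-/

namespace Pool.Agent.P.MP_838544_lc

/-- An argument of a gate: the input bit that tells whether `a` and `b` are adjacent, or the
content of register `j`. -/
inductive Arg (α : Type) (w : ℕ) : Type
  | edge (a b : α) : Arg α w
  | reg (j : Fin w) : Arg α w

/-- A monotone real gate: a real function of two arguments that is nondecreasing in both. -/
structure Gate (α : Type) (w : ℕ) : Type where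
  op : ℝ → ℝ → ℝ
  mono : ∀ a a' b b', a ≤ a' → b ≤ b' → op a b ≤ op a' b'
  left : Arg α w
  right : Arg α w

open Classical in
/-- The value of an argument on the input graph `G` when the registers hold `s`. -/
noncomputable def Arg.val {α : Type} {w : ℕ} (G : SimpleGraph α) (s : Fin w → ℝ) : Arg α w → ℝ
  | .edge a b => if G.Adj a b then 1 else 0
  | .reg j => s j

/-- The contents of the `w` registers after `t` steps of the circuit `C` on input `G`. All
registers start at `0`, and in step `t` every register `j` is overwritten by the value of the
gate `C t j`. -/
noncomputable def run {α : Type} {w : ℕ} (C : ℕ → Fin w → Gate α w) (G : SimpleGraph α) :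
    ℕ → Fin w → ℝ
  | 0 => fun _ => 0
  | t + 1 => fun j => (C t j).op ((C t j).left.val G (run C G t)) ((C t j).right.val G (run C G t))

/-- Two layers are equal or consecutive. -/
def Near {r : ℕ} (i i' : Fin r) : Prop := i.val ≤ i'.val + 1 ∧ i'.val ≤ i.val + 1

/-- The vertex `(i, c, m)` is the `m`-th vertex of colour `c` in layer `i`. The graph is layered
if every edge lies inside a layer or joins consecutive layers. -/
def Layered {r k M : ℕ} (G : SimpleGraph (Fin r × Fin k × Fin M)) : Prop :=
  ∀ a b, G.Adj a b → Near a.1 b.1

/-- Chained Multicoloured Clique: there is a set of vertices that meets every colour in every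
layer and whose part in any two consecutive layers is a clique. -/
def ChainedClique {r k M : ℕ} (G : SimpleGraph (Fin r × Fin k × Fin M)) : Prop :=
  ∃ W : Set (Fin r × Fin k × Fin M), (∀ i c, ∃ m, (i, c, m) ∈ W) ∧
    ∀ a ∈ W, ∀ b ∈ W, a ≠ b → Near a.1 b.1 → G.Adj a b

end Pool.Agent.P.MP_838544_lc
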