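import Pool.Agent.P.MP_838544_lc.Core

/-!
The time-width tradeoff for monotone circuits that decide Chained Multicoloured Clique.
-/

namespace Pool.Agent.P.MP_838544_lc

open Finset

variable {r k M w : ℕ}

/-- The position (layer and colour) of a vertex. -/
def posn (a : Fin r × Fin k × Fin M) : Pos r k := (a.1, a.2.1)

/-- The accepted graph of a pointer vector. -/
def gpos (x : Row r k M) : SimpleGraph (Fin r × Fin k × Fin M) where
  Adj a b := Nb (posn a) (posn b) ∧ a.2.2 = x (posn a) ∧ b.2.2 = x (posn b)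
  symm := ⟨fun _ _ h => ⟨h.1.symm, h.2.2, h.2.1⟩⟩
  loopless := ⟨fun _ h => h.1.1 rfl⟩

/-- The rejected graph of a table. -/
def gneg (o : Pos r k) (y : Col r k M) : SimpleGraph (Fin r × Fin k × Fin M) where
  Adj a b := Nb (posn a) (posn b) ∧
    Compat o (posn a) (y (posn a, a.2.2)) (posn b) (y (posn b, b.2.2))
  symm := ⟨fun _ _ h => ⟨h.1.symm, h.2.symm⟩⟩
  loopless := ⟨fun _ h => h.1.1 rfl⟩

theorem clique_gpos (x : Row r k M) : ChainedClique (gpos x) := by
  refine ⟨{a | a.2.2 = x (posn a)}, fun i c => ⟨x (i, c), rfl⟩, fun a ha b hb hab hn => ?_⟩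
  refine ⟨⟨fun e => hab ?_, hn⟩, ha, hb⟩
  have ha' : a.2.2 = x (posn a) := ha
  have hb' : b.2.2 = x (posn b) := hb
  have e1 : a.1 = b.1 := (congrArg Prod.fst e :)
  have e2 : a.2.1 = b.2.1 := (congrArg Prod.snd e :)
  exact Prod.ext e1 (Prod.ext e2 (by rw [ha', hb', e]))

theorem not_clique_gneg (hk : 2 ≤ k) (o : Pos r k) (y : Col r k M) :
    ¬ ChainedClique (gneg o y) := by
  rintro ⟨W, h1, h2⟩
  choose m hm using h1
  refine not_all_compat hk o (fun u => y (u, m u.1 u.2)) fun u v huv => ?_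
  refine (h2 _ (hm u.1 u.2) _ (hm v.1 v.2) (fun e => huv.1 ?_) huv.2).2
  have e1 : u.1 = v.1 := (congrArg Prod.fst e :)
  have e2 : u.2 = v.2 := (congrArg (fun a => a.2.1) e :)
  exact Prod.ext e1 e2

theorem src_arg (o : Pos r k) (C : ℕ → Fin w → Gate (Fin r × Fin k × Fin M) w) (t : ℕ)
    (p : Arg (Fin r × Fin k × Fin M) w) :
    Src o (fun t i x y => run C (gneg o y) t i < run C (gpos x) t i) t
      (fun x y => p.val (gneg o y) (run C (gneg o y) t) < p.val (gpos x) (run C (gpos x) t)) := by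
  cases p with
  | edge a b =>
    refine Or.inr ⟨posn a, posn b, fun x y h => ?_⟩
    simp only [Arg.val] at h
    have h1 : (gpos x).Adj a b := by
      by_contra hc
      rw [if_neg hc] at h
      split_ifs at h <;> linarith
    have h2 : ¬ (gneg o y).Adj a b := by
      intro hc
      rw [if_pos hc, if_pos h1] at h
      linarith
    refine ⟨h1.1, fun hc => h2 ⟨h1.1, ?_⟩⟩
    rw [h1.2.1, h1.2.2]
    exact hc
  | reg j => exact Or.inl ⟨j, fun x y h => h⟩

theorem exists_root (M : ℕ) : ∃ q, q ^ 8 ≤ M ∧ M < (q + 1) ^ 8 :=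
  ⟨Nat.nthRoot 8 M, Nat.pow_nthRoot_le (Or.inl (by norm_num)),
    Nat.lt_pow_nthRoot_add_one (by norm_num) M⟩

theorem tradeoff (L B T : ℕ) (hk : 7 ≤ k) (hL : 2 ^ L ≤ r) (hM : (4 ^ k * r) ^ 8 ≤ M)
    (hB : 1 ≤ B) (hw : (B * w) ^ 13 ≤ M ^ k) (C : ℕ → Fin w → Gate (Fin r × Fin k × Fin M) w)
    (out : Fin w) (hC : ∀ G, Layered G → (0 < run C G T out ↔ ChainedClique G)) : B ^ L < T := by
  classical
  by_contra hT
  have hr : 0 < r := lt_of_lt_of_le (by positivity) hL
  have hw0 : 0 < w := out.pos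
  obtain ⟨q, hq1, hq2⟩ := exists_root M
  have hq3 : 4 ^ k * r ≤ q := by
    have := lt_of_pow_lt_pow_left₀ 8 (by positivity) (hM.trans_lt hq2)
    omega
  have hk2 : k < 2 ^ k := Nat.lt_two_pow_self
  have h128 : 128 ≤ 2 ^ k := Nat.pow_le_pow_right (n := 2) (by norm_num) hk
  have h4 : 4 ^ k = 2 ^ k * 2 ^ k := by rw [← mul_pow]; rfl
  have hq4 : 4 ^ k ≤ q := le_trans (Nat.le_mul_of_pos_right _ hr) hq3
  have hq5 : 3 * k + 2 ≤ q := by nlinarith
  have hq0 : 0 < q := by omega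
  have hA : Fintype.card (Alph k) = 2 ^ (3 * k) := by
    simp [ZMod.card, mul_comm]
  let o : Pos r k := (⟨0, hr⟩, ⟨0, by omega⟩)
  have hM2 : M ≤ 2 ^ (8 * q) := by
    have : q + 1 ≤ 2 ^ q := Nat.lt_two_pow_self
    rw [mul_comm, pow_mul]
    exact hq2.le.trans (Nat.pow_le_pow_left this 8)
  have hrk : 0 < r * k := Nat.mul_pos hr (by omega)
  have hBw : B * w ≤ 2 ^ (8 * q * (r * k)) := by
    calc B * w ≤ (B * w) ^ 13 := Nat.le_self_pow (by norm_num) _
      _ ≤ M ^ k := hw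
      _ ≤ (2 ^ (8 * q)) ^ k := Nat.pow_le_pow_left hM2 k
      _ ≤ (2 ^ (8 * q)) ^ (r * k) :=
          Nat.pow_le_pow_right (by positivity) (Nat.le_mul_of_pos_left _ hr)
      _ = _ := by rw [← pow_mul]
  have hD : 2 * Fintype.card (Idx r k M w B) ≤ 2 ^ (17 * (r * k) * q) := by
    have e : Fintype.card (Idx r k M w B)
        = B * w * (2 ^ (r * k) * (M ^ (r * k) * (2 ^ (3 * k)) ^ (r * k))) := by
      rw [← hA]
      simp [mul_assoc]
    calc 2 * Fintype.card (Idx r k M w B)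
        ≤ 2 * (2 ^ (8 * q * (r * k)) * (2 ^ (r * k) * ((2 ^ (8 * q)) ^ (r * k) *
          (2 ^ (3 * k)) ^ (r * k)))) := by
          rw [e]
          gcongr
      _ = 2 ^ (1 + (16 * q + 1 + 3 * k) * (r * k)) := by
          simp only [← pow_mul, ← pow_add, ← pow_succ']
          congr 1
          ring
      _ ≤ _ := Nat.pow_le_pow_right (by norm_num) (by nlinarith)
  have hb3 : k ≤ 3 * ((k - 1) / 3 + 1) := by omega
  refine core (M := M) (w := w) o (κ := q ^ 4) (l := q ^ 4) (b := (k - 1) / 3) (B := B)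
    (G := 18 * r * (r * k) * q) (by positivity) (by positivity) (by positivity) hB (by omega)
    (by omega) ?_ ?_ (fun t i x y => run C (gneg o y) t i < run C (gpos x) t i) ?_ ?_
    L 0 0 T univ univ ∅ (fun _ _ => 0) out (by omega) (Nat.zero_le _) (by omega) ?_ ?_ ?_ ?_ ?_ ?_
    ?_ ?_ ?_
  · have a1 : 90 * k ^ 2 ≤ 2 ^ (3 * k) := by
      rw [show 3 * k = k + k + k by ring, pow_add, pow_add]
      have : k ^ 2 ≤ 2 ^ k * 2 ^ k := by nlinarith
      nlinarith
    have a2 : (4 ^ k * r) ^ 3 = 2 ^ (3 * k) * 2 ^ (3 * k) * r ^ 3 := by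
      rw [h4, mul_comm 3 k, pow_mul]
      ring
    calc 5 * (r * k) * (18 * r * (r * k) * q * Fintype.card (Alph k))
        = 90 * k ^ 2 * 2 ^ (3 * k) * r ^ 3 * q := by rw [hA]; ring
      _ ≤ 2 ^ (3 * k) * 2 ^ (3 * k) * r ^ 3 * q := by gcongr
      _ ≤ q ^ 3 * q := by
          rw [← a2]
          gcongr
      _ = q ^ 4 := by ring
  · refine lt_of_pow_lt_pow_left₀ 13 (by positivity) ?_
    have a1 : M ^ k ≤ (2 * q) ^ (8 * k) := by
      rw [pow_mul]
      exact Nat.pow_le_pow_left (hq2.le.trans (Nat.pow_le_pow_left (by omega) 8)) k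
    have a2 : 2 ^ (13 + 16 * k) < q ^ 9 := by
      calc 2 ^ (13 + 16 * k) < 2 ^ (18 * k) := Nat.pow_lt_pow_right (by norm_num) (by omega)
        _ = (4 ^ k) ^ 9 := by
            rw [show (4 : ℕ) = 2 ^ 2 by norm_num, ← pow_mul, ← pow_mul]
            congr 1
            ring
        _ ≤ q ^ 9 := Nat.pow_le_pow_left hq4 9
    calc (2 * (B * w) ^ 2) ^ 13 = 2 ^ 13 * ((B * w) ^ 13) ^ 2 := by ring
      _ ≤ 2 ^ 13 * ((2 * q) ^ (8 * k)) ^ 2 :=
          Nat.mul_le_mul_left _ (Nat.pow_le_pow_left (hw.trans a1) 2)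
      _ = 2 ^ (13 + 16 * k) * q ^ (16 * k) := by
          rw [← pow_mul, mul_pow, pow_add, show 8 * k * 2 = 16 * k by ring]
          ring
      _ < q ^ 9 * q ^ (16 * k) := Nat.mul_lt_mul_of_pos_right a2 (by positivity)
      _ ≤ ((q ^ 4) ^ ((k - 1) / 3 + 1)) ^ 13 := by
          rw [← pow_add, ← pow_mul, ← pow_mul]
          exact Nat.pow_le_pow_right hq0 (by omega)
  · intro t i X hX
    obtain ⟨x, hx, hm⟩ := Finset.exists_min_image X (fun x => run C (gpos x) t i) hX
    exact ⟨x, hx, fun x' hx' y h => h.trans_le (hm x' hx')⟩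
  · intro t i
    refine ⟨_, _, src_arg o C t (C t i).left, src_arg o C t (C t i).right, fun x y h => ?_⟩
    by_contra hc
    push Not at hc
    exact absurd ((C t i).mono _ _ _ _ hc.1 hc.2) (not_le.2 h)
  · have : 0 < M := lt_of_lt_of_le (by positivity) hq1
    exact ⟨fun _ => ⟨0, this⟩, mem_univ _⟩
  · intro x _ x' _ v hv
    simp at hv
  · exact pot_univ _ (by positivity) (by rw [Fintype.card_fin, ← pow_add]; exact hq1) one_pos
  · exact pot_univ _ (by positivity) (by rw [Fintype.card_fin, ← pow_add]; exact hq1)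
      (by positivity)
  · intro x _ y _ v hv
    simp at hv
  · exact ⟨o, mem_region.2 ⟨le_rfl, by simp [o]⟩, highAt_empty o _⟩
  · intro x _ y _
    have h1 := (hC (gpos x) fun a b h => h.1.2).2 (clique_gpos x)
    have h2 := mt (hC (gneg o y) fun a b h => h.1.2).1 (not_clique_gneg (by omega) o y)
    exact (not_lt.1 h2).trans_lt h1
  · exact fun x _ i => ⟨∅, by simp, fun y _ h => absurd h (lt_irrefl _)⟩
  · rw [Finset.card_univ, mul_comm]
    refine Nat.mul_lt_mul_of_pos_right ?_ Fintype.card_pos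
    have hLr : L < r := lt_of_lt_of_le Nat.lt_two_pow_self hL
    calc _ ≤ (2 ^ (17 * (r * k) * q)) ^ L := Nat.pow_le_pow_left hD L
      _ < _ := by
          rw [← pow_mul]
          refine Nat.pow_lt_pow_right (by norm_num) ?_
          have : 0 < r * k * q := Nat.mul_pos hrk hq0
          nlinarith

end Pool.Agent.P.MP_838544_lc
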