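import Mathlib.Data.ZMod.Basic
import Mathlib.Data.Sym.Sym2
import Mathlib.Algebra.BigOperators.Group.Finset.Basic

/-!
Tseitin formulas on the `k × r` grid with every edge doubled, and resolution refutations with
bounded clause space.
-/

namespace Pool.Agent.P.MP_838544_lc.Res

/-- Adjacency in the grid with `k` rows and `r` columns. -/
def Adj {k r : ℕ} (u v : Fin k × Fin r) : Prop :=
  (u.1 = v.1 ∧ (u.2.val + 1 = v.2.val ∨ v.2.val + 1 = u.2.val)) ∨
    (u.2 = v.2 ∧ (u.1.val + 1 = v.1.val ∨ v.1.val + 1 = u.1.val))

instance decAdj {k r : ℕ} : DecidableRel (Adj (k := k) (r := r)) := fun u v => by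
  unfold Adj; infer_instance

/-- Propositional variables: two copies of every unordered pair of grid vertices (only the
pairs that are grid edges occur in the formula). -/
abbrev Var (k r : ℕ) := Sym2 (Fin k × Fin r) × Bool

/-- A clause is a finite set of literals; the literal `(x, b)` says that `x` has value `b`.
Truth values are the two elements of `ZMod 2`. -/
abbrev Clause (k r : ℕ) := Finset (Var k r × ZMod 2)

/-- The assignment `a` satisfies the clause `D`. -/
def Sat {k r : ℕ} (a : Var k r → ZMod 2) (D : Clause k r) : Prop := ∃ l ∈ D, a l.1 = l.2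

/-- The parity constraint at `v`: the sum of both copies of all edges at `v` is `1` if `v` is
the charged vertex `o`, and `0` otherwise. -/
def Parity {k r : ℕ} (o v : Fin k × Fin r) (a : Var k r → ZMod 2) : Prop :=
  ∑ u ∈ Finset.univ.filter (Adj v), (a (s(v, u), false) + a (s(v, u), true))
    = if v = o then 1 else 0

/-- The clauses of the formula: clauses over the (at most eight) variables at a vertex `v` that
follow from the parity constraint at `v`. -/
def Axiom {k r : ℕ} (o : Fin k × Fin r) (D : Clause k r) : Prop :=
  ∃ v, (∀ l ∈ D, ∃ u, Adj v u ∧ l.1.1 = s(v, u)) ∧ ∀ a, Parity o v a → Sat a D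

/-- A refutation with `T` steps and clause space `s`: memory contents `mem 0, …, mem T` of at
most `s` clauses each, from the empty memory to one that holds the empty clause, where every
clause in memory is an axiom or follows from two clauses of the previous memory content. -/
structure Refutation {k r : ℕ} (o : Fin k × Fin r) (s T : ℕ) (mem : ℕ → Finset (Clause k r)) :
    Prop where
  start : mem 0 = ∅
  finish : ∅ ∈ mem T
  space : ∀ t ≤ T, (mem t).card ≤ s
  step : ∀ t < T, ∀ D ∈ mem (t + 1), Axiom o D ∨
    ∃ D₁ ∈ mem t, ∃ D₂ ∈ mem t, ∀ a, Sat a D₁ → Sat a D₂ → Sat a D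

end Pool.Agent.P.MP_838544_lc.Res
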