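import Mathlib
import Pool.Agent.P.MP_838544_lc.ResDefs

/-!
Moving the violated vertex of an edge labelling of the grid.
-/

namespace Pool.Agent.P.MP_838544_lc.Res

open Finset

variable {k r : ℕ}

/-- Unordered pairs of grid vertices. -/
abbrev Edge (k r : ℕ) := Sym2 (Fin k × Fin r)

theorem Adj.symm {u v : Fin k × Fin r} (h : Adj u v) : Adj v u := by
  rcases h with ⟨h1, h2⟩ | ⟨h1, h2⟩
  · exact Or.inl ⟨h1.symm, h2.symm⟩
  · exact Or.inr ⟨h1.symm, h2.symm⟩

theorem Adj.ne {u v : Fin k × Fin r} (h : Adj u v) : u ≠ v := by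
  rintro rfl
  rcases h with ⟨_, h2⟩ | ⟨_, h2⟩ <;> omega

/-- The indicator of a vertex. -/
def chi (o u : Fin k × Fin r) : ZMod 2 := if u = o then 1 else 0

/-- The labelling `z` violates exactly the constraint at `v`. -/
def Viol (o : Fin k × Fin r) (z : Edge k r → ZMod 2) (v : Fin k × Fin r) : Prop :=
  ∀ u, ∑ u' ∈ univ.filter (Adj u), z s(u, u') = chi o u + chi v u

/-- Some labelling that agrees with `z` on `S` violates exactly the constraint at `v`. -/
def HA (o : Fin k × Fin r) (S : Finset (Edge k r)) (z : Edge k r → ZMod 2) (v : Fin k × Fin r) :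
    Prop := ∃ z', (∀ e ∈ S, z' e = z e) ∧ Viol o z' v

theorem HA.move {o u v : Fin k × Fin r} {S : Finset (Edge k r)} {z : Edge k r → ZMod 2}
    (h : HA o S z u) (huv : Adj u v) (hS : s(u, v) ∉ S) : HA o S z v := by
  obtain ⟨z', h1, h2⟩ := h
  refine ⟨fun e => z' e + if e = s(u, v) then 1 else 0, fun e he => ?_, fun a => ?_⟩
  · have : e ≠ s(u, v) := fun h => hS (h ▸ he)
    simp [this, h1 e he]
  · have e1 : ∑ b ∈ univ.filter (Adj a), (if s(a, b) = s(u, v) then (1 : ZMod 2) else 0)
        = chi u a + chi v a := by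
      have hne := huv.ne
      by_cases hau : a = u
      · subst hau
        rw [Finset.sum_eq_single v]
        · simp [chi, hne]
        · intro b _ hb
          rw [if_neg]
          intro e
          exact hb (Sym2.congr_right.1 e)
        · intro hv
          exact absurd (by simpa using huv) hv
      · by_cases hav : a = v
        · subst hav
          rw [Finset.sum_eq_single u]
          · simp [chi, hau]
          · intro b _ hb
            rw [if_neg]
            intro e
            rw [Sym2.eq_swap (a := u)] at e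
            exact hb (Sym2.congr_right.1 e)
          · intro hv
            exact absurd (by simpa using huv.symm) hv
        · rw [Finset.sum_eq_zero]
          · simp [chi, hau, hav]
          · intro b _
            rw [if_neg]
            intro e
            rcases Sym2.eq_iff.1 e with e | e
            · exact hau e.1
            · exact hav e.1
    rw [Finset.sum_add_distrib, h2 a, e1]
    have := CharTwo.add_self_eq_zero (chi u a)
    linear_combination this

theorem HA.mono {o v : Fin k × Fin r} {S S' : Finset (Edge k r)} {z z' : Edge k r → ZMod 2}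
    (h : HA o S z v) (hS : S' ⊆ S) (hz : ∀ e ∈ S', z e = z' e) : HA o S' z' v := by
  obtain ⟨y, h1, h2⟩ := h
  exact ⟨y, fun e he => (h1 e (hS he)).trans (hz e he), h2⟩

/-- The smaller column of a pair. -/
def col : Edge k r → ℕ := Sym2.lift ⟨fun u v => min u.2.val v.2.val, fun _ _ => min_comm _ _⟩

/-- The smaller row of a pair. -/
def row : Edge k r → ℕ := Sym2.lift ⟨fun u v => min u.1.val v.1.val, fun _ _ => min_comm _ _⟩

/-- The pairs whose smaller column lies in `[p, q)`. -/
def EP (k r p q : ℕ) : Finset (Edge k r) := univ.filter fun e => p ≤ col e ∧ col e < q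

theorem mem_EP {p q : ℕ} {e : Edge k r} : e ∈ EP k r p q ↔ p ≤ col e ∧ col e < q := by simp [EP]

theorem EP_mono {p q p' q' : ℕ} (h1 : p ≤ p') (h2 : q' ≤ q) : EP k r p' q' ⊆ EP k r p q := by
  intro e he
  rw [mem_EP] at he ⊢
  omega

/-- No edge of row `i` between the columns `[p, q)` lies in `S`. -/
def RowFree (S : Finset (Edge k r)) (p q : ℕ) (i : Fin k) : Prop :=
  ∀ c c' : Fin r, p ≤ c.val → c'.val = c.val + 1 → c'.val < q → s((i, c), (i, c')) ∉ S

/-- No edge of column `c` lies in `S`. -/
def ColFree (S : Finset (Edge k r)) (c : Fin r) : Prop :=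
  ∀ i i' : Fin k, i'.val = i.val + 1 → s((i, c), (i', c)) ∉ S

theorem RowFree.mono {S S' : Finset (Edge k r)} {p q p' q' : ℕ} {i : Fin k}
    (h : RowFree S p q i) (hS : S' ⊆ S) (h1 : p ≤ p') (h2 : q' ≤ q) : RowFree S' p' q' i :=
  fun c c' a1 a2 a3 hh => h c c' (by omega) a2 (by omega) (hS hh)

theorem HA.row {o : Fin k × Fin r} {S : Finset (Edge k r)} {z : Edge k r → ZMod 2} {p q : ℕ}
    {i : Fin k} (hi : RowFree S p q i) {c c' : Fin r} (h : HA o S z (i, c)) (h1 : p ≤ c.val)
    (h2 : c.val < q) (h3 : p ≤ c'.val) (h4 : c'.val < q) : HA o S z (i, c') := by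
  have key : ∀ n : ℕ, ∀ j : Fin r, p ≤ j.val → j.val < q →
      (j.val = c.val + n ∨ j.val + n = c.val) → HA o S z (i, j) := by
    intro n
    induction n with
    | zero =>
      intro j _ _ hj
      have : j = c := Fin.ext (by omega)
      exact this ▸ h
    | succ n ih =>
      intro j hj1 hj2 hj
      rcases hj with hj | hj
      · have := ih ⟨j.val - 1, by omega⟩ (by simp; omega) (by simp; omega)
          (Or.inl (by simp; omega))
        exact this.move (Or.inl ⟨rfl, Or.inl (by simp; omega)⟩)
          (hi _ _ (by simp; omega) (by simp; omega) hj2)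
      · have := ih ⟨j.val + 1, by have := c.2; omega⟩ (by simp; omega) (by simp; omega)
          (Or.inr (by simp; omega))
        refine this.move (Or.inl ⟨rfl, Or.inr (by simp)⟩) ?_
        rw [Sym2.eq_swap]
        exact hi _ _ hj1 (by simp) (by simp; omega)
  rcases le_total c'.val c.val with hle | hle
  · exact key (c.val - c'.val) c' h3 h4 (Or.inr (by omega))
  · exact key (c'.val - c.val) c' h3 h4 (Or.inl (by omega))

theorem HA.col {o : Fin k × Fin r} {S : Finset (Edge k r)} {z : Edge k r → ZMod 2}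
    {c : Fin r} (hc : ColFree S c) {i i' : Fin k} (h : HA o S z (i, c)) : HA o S z (i', c) := by
  have key : ∀ n : ℕ, ∀ j : Fin k, (j.val = i.val + n ∨ j.val + n = i.val) → HA o S z (j, c) := by
    intro n
    induction n with
    | zero =>
      intro j hj
      have : j = i := Fin.ext (by omega)
      exact this ▸ h
    | succ n ih =>
      intro j hj
      rcases hj with hj | hj
      · have := ih ⟨j.val - 1, by omega⟩ (Or.inl (by simp; omega))
        exact this.move (Or.inr ⟨rfl, Or.inl (by simp; omega)⟩) (hc _ _ (by simp; omega))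
      · have := ih ⟨j.val + 1, by have := i.2; omega⟩ (Or.inr (by simp; omega))
        refine this.move (Or.inr ⟨rfl, Or.inr (by simp)⟩) ?_
        rw [Sym2.eq_swap]
        exact hc _ _ (by simp)
  rcases le_total i'.val i.val with hle | hle
  · exact key (i.val - i'.val) i' (Or.inr (by omega))
  · exact key (i'.val - i.val) i' (Or.inl (by omega))

theorem exists_rowFree {S : Finset (Edge k r)} {p q : ℕ} (h : (S ∩ EP k r p q).card < k) :
    ∃ i, RowFree S p q i := by
  by_contra hc
  simp only [RowFree, not_exists, not_forall, not_not] at hc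
  choose c c' h1 h2 h3 h4 using hc
  have := Finset.card_le_card_of_injOn (s := (univ : Finset (Fin k))) (t := S ∩ EP k r p q)
    (fun i => s((i, c i), (i, c' i))) ?_ ?_
  · simp at this
    omega
  · intro i _
    refine Finset.mem_coe.2 (Finset.mem_inter.2 ⟨h4 i, mem_EP.2 ?_⟩)
    have a1 := h1 i
    have a2 := h2 i
    have a3 := h3 i
    simp only [col, Sym2.lift_mk]
    omega
  · intro i _ j _ e
    have := congrArg row e
    simp only [row, Sym2.lift_mk, min_self] at this
    exact Fin.ext this

theorem exists_colFree {S : Finset (Edge k r)} {p q : ℕ} (h : p + (S ∩ EP k r p q).card < q)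
    (hq : q ≤ r) : ∃ c : Fin r, p ≤ c.val ∧ c.val < q ∧ ColFree S c := by
  by_contra hc
  have hc' : ∀ c : Fin r, ∃ e : Edge k r, p ≤ c.val → c.val < q → e ∈ S ∧ col e = c.val := by
    intro c
    by_cases h0 : ColFree S c
    · have hk : Nonempty (Edge k r) := by
        by_contra hn
        rcases Nat.eq_zero_or_pos k with e | e
        · refine hc ⟨⟨p, by omega⟩, le_rfl, by simp; omega, fun i => ?_⟩
          exact absurd i.2 (by omega)
        · exact hn ⟨s((⟨0, e⟩, c), (⟨0, e⟩, c))⟩
      exact ⟨hk.some, fun a b => absurd ⟨c, a, b, h0⟩ hc⟩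
    · simp only [ColFree, not_forall, not_not] at h0
      obtain ⟨i, i', -, h0⟩ := h0
      exact ⟨_, fun _ _ => ⟨h0, by simp [col]⟩⟩
  choose f hf using hc'
  have := Finset.card_le_card_of_injOn (s := Finset.Ico p q) (t := S ∩ EP k r p q)
    (fun c => if hh : c < r then f ⟨c, hh⟩ else f ⟨p, by omega⟩) ?_ ?_
  · rw [Nat.card_Ico] at this
    omega
  · intro c hcm
    have a := Finset.mem_Ico.1 (Finset.mem_coe.1 hcm)
    have hh : c < r := by omega
    have b := hf ⟨c, hh⟩ a.1 a.2
    simp only [dif_pos hh]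
    refine Finset.mem_coe.2 (Finset.mem_inter.2 ⟨b.1, mem_EP.2 ?_⟩)
    rw [b.2]
    exact a
  · intro c hcm c' hcm' e
    have a := Finset.mem_Ico.1 (Finset.mem_coe.1 hcm)
    have a' := Finset.mem_Ico.1 (Finset.mem_coe.1 hcm')
    have hh : c < r := by omega
    have hh' : c' < r := by omega
    simp only [dif_pos hh, dif_pos hh'] at e
    have b := (hf ⟨c, hh⟩ a.1 a.2).2
    have b' := (hf ⟨c', hh'⟩ a'.1 a'.2).2
    rw [e, b'] at b
    exact b.symm

/-- The violated vertex can be taken in a row that is free between the columns `[p, q)`. -/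
def High (o : Fin k × Fin r) (p q : ℕ) (S : Finset (Edge k r)) (z : Edge k r → ZMod 2) : Prop :=
  ∃ i, ∃ c : Fin r, p ≤ c.val ∧ c.val < q ∧ RowFree S p q i ∧ HA o S z (i, c)

theorem High.shift {o : Fin k × Fin r} {p q : ℕ} {S : Finset (Edge k r)} {z : Edge k r → ZMod 2}
    (h : High o p q S z) (hS : p + (S ∩ EP k r p q).card < q) (hq : q ≤ r) (i : Fin k) :
    ∃ c : Fin r, p ≤ c.val ∧ c.val < q ∧ HA o S z (i, c) := by
  obtain ⟨i', c', a1, a2, a3, a4⟩ := h
  obtain ⟨c, b1, b2, b3⟩ := exists_colFree hS hq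
  exact ⟨c, b1, b2, (a4.row a3 a1 a2 b1 b2).col b3⟩

theorem High.shrink {o : Fin k × Fin r} {p q p' q' : ℕ} {S : Finset (Edge k r)}
    {z : Edge k r → ZMod 2} (h : High o p q S z) (h1 : p ≤ p') (h2 : p' < q') (h3 : q' ≤ q)
    (h4 : q ≤ r) : High o p' q' S z := by
  obtain ⟨i, c, a1, a2, a3, a4⟩ := h
  exact ⟨i, ⟨p', by omega⟩, le_rfl, h2, a3.mono subset_rfl h1 h3,
    a4.row a3 a1 a2 h1 (by simp; omega)⟩

theorem High.grow {o : Fin k × Fin r} {p q p' q' : ℕ} {S : Finset (Edge k r)}
    {z : Edge k r → ZMod 2} (h : High o p' q' S z) (h1 : p ≤ p') (h3 : q' ≤ q) (h4 : q ≤ r)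
    (hk : (S ∩ EP k r p q).card < k) (hq : p' + k ≤ q') : High o p q S z := by
  obtain ⟨i, hi⟩ := exists_rowFree hk
  have := Finset.card_le_card (Finset.inter_subset_inter (subset_refl S) (EP_mono (k := k)
    (r := r) h1 h3))
  obtain ⟨c, a1, a2, a3⟩ := h.shift (by omega) (by omega) i
  exact ⟨i, c, by omega, by omega, hi, a3⟩

end Pool.Agent.P.MP_838544_lc.Res
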