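import Pool.Agent.P.MP_838544_lc.ResGrid

/-!
The length-space tradeoff for resolution refutations of the doubled grid Tseitin formulas.
-/

namespace Pool.Agent.P.MP_838544_lc.Res

open Finset

variable {k r : ℕ}

/-- Restrictions: for every pair, one copy and a value for it. -/
abbrev Restr (k r : ℕ) := Edge k r → Bool × ZMod 2

/-- The assignment given by a restriction and an edge labelling. -/
def lift (ρ : Restr k r) (z : Edge k r → ZMod 2) : Var k r → ZMod 2 := fun x =>
  if x.2 = (ρ x.1).1 then (ρ x.1).2 else z x.1 - (ρ x.1).2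

theorem lift_add (ρ : Restr k r) (z : Edge k r → ZMod 2) (e : Edge k r) :
    lift ρ z (e, false) + lift ρ z (e, true) = z e := by
  cases h : (ρ e).1 <;> simp [lift, h]

/-- The pairs that a clause mentions. -/
def edges (D : Clause k r) : Finset (Edge k r) := D.image fun l => l.1.1

theorem sat_congr {ρ : Restr k r} {z z' : Edge k r → ZMod 2} {D : Clause k r}
    (h : ∀ e ∈ edges D, z' e = z e) (hs : Sat (lift ρ z') D) : Sat (lift ρ z) D := by
  obtain ⟨l, hl, e⟩ := hs
  refine ⟨l, hl, ?_⟩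
  rw [← e, lift, lift, h _ (Finset.mem_image_of_mem _ hl)]

/-- All clauses that survive are narrow and low. -/
def Lo (o : Fin k × Fin r) (d p q : ℕ) (ρ : Restr k r) (m : Finset (Clause k r)) : Prop :=
  ∀ D ∈ m, ∀ z, ¬ Sat (lift ρ z) D → (edges D ∩ EP k r p q).card ≤ d ∧ ¬ High o p q (edges D) z

/-- Some clause that survives is narrow and high. -/
def Hi (o : Fin k × Fin r) (d p q : ℕ) (ρ : Restr k r) (m : Finset (Clause k r)) : Prop :=
  ∃ D ∈ m, ∃ z, ¬ Sat (lift ρ z) D ∧ (edges D ∩ EP k r p q).card ≤ d ∧ High o p q (edges D) z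

theorem Lo.shrink {o : Fin k × Fin r} {d p q p' q' : ℕ} {ρ : Restr k r}
    {m : Finset (Clause k r)} (h : Lo o d p q ρ m) (hd : d < k) (h1 : p ≤ p') (h2 : p' + k ≤ q')
    (h3 : q' ≤ q) (h4 : q ≤ r) : Lo o d p' q' ρ m := by
  intro D hD z hz
  obtain ⟨a1, a2⟩ := h D hD z hz
  exact ⟨le_trans (Finset.card_le_card (Finset.inter_subset_inter subset_rfl (EP_mono h1 h3))) a1,
    fun hh => a2 (hh.grow h1 h3 h4 (by omega) h2)⟩

theorem Hi.shrink {o : Fin k × Fin r} {d p q p' q' : ℕ} {ρ : Restr k r}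
    {m : Finset (Clause k r)} (h : Hi o d p q ρ m) (h1 : p ≤ p') (h2 : p' < q')
    (h3 : q' ≤ q) (h4 : q ≤ r) : Hi o d p' q' ρ m := by
  obtain ⟨D, hD, z, a1, a2, a3⟩ := h
  exact ⟨D, hD, z, a1,
    le_trans (Finset.card_le_card (Finset.inter_subset_inter subset_rfl (EP_mono h1 h3))) a2,
    a3.shrink h1 h2 h3 h4⟩

theorem parity_lift {o u v : Fin k × Fin r} {ρ : Restr k r} {z : Edge k r → ZMod 2}
    (h : Viol o z u) (hne : v ≠ u) : Parity o v (lift ρ z) := by
  have := h v
  rw [show chi u v = 0 by simp [chi, hne], add_zero] at this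
  rw [Parity, Finset.sum_congr rfl fun u' _ => lift_add ρ z s(v, u'), this]
  rfl

theorem one_step {o : Fin k × Fin r} {d p q : ℕ} {ρ : Restr k r} {m : Finset (Clause k r)}
    (hd : 2 * d < k) (hk : 2 ≤ k) (hq : p + k ≤ q) (hr : q ≤ r) (hlo : Lo o d p q ρ m)
    {D : Clause k r} {z : Edge k r → ZMod 2} (h1 : ¬ Sat (lift ρ z) D)
    (h2 : (edges D ∩ EP k r p q).card ≤ d) (h3 : High o p q (edges D) z)
    (h : Axiom o D ∨ ∃ D₁ ∈ m, ∃ D₂ ∈ m, ∀ a, Sat a D₁ → Sat a D₂ → Sat a D) : False := by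
  rcases h with ⟨v, -, hv⟩ | ⟨D₁, hD₁, D₂, hD₂, h⟩
  · obtain ⟨i, c, a1, a2, a3, a4⟩ := h3
    have key : ∀ c' : Fin r, p ≤ c'.val → c'.val < q → v = (i, c') := by
      intro c' b1 b2
      obtain ⟨z', e1, e2⟩ := a4.row a3 a1 a2 b1 b2
      by_contra hne
      exact h1 (sat_congr e1 (hv _ (parity_lift e2 hne)))
    have e1 := key ⟨p, by omega⟩ le_rfl (by simp; omega)
    have e2 := key ⟨p + 1, by omega⟩ (by simp) (by simp; omega)
    rw [e1] at e2
    simpa using congrArg (fun x => x.2.val) e2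
  · have pick : ∀ D' ∈ m, ∃ S : Finset (Edge k r), (S ∩ EP k r p q).card ≤ d ∧
        ((∃ z', ¬ Sat (lift ρ z') D') → edges D' ⊆ S) := by
      intro D' hD'
      by_cases hh : ∃ z', ¬ Sat (lift ρ z') D'
      · obtain ⟨z', hz'⟩ := hh
        exact ⟨edges D', (hlo D' hD' z' hz').1, fun _ => subset_rfl⟩
      · exact ⟨∅, by simp, fun h => absurd h hh⟩
    obtain ⟨S₁, b1, b2⟩ := pick D₁ hD₁
    obtain ⟨S₂, c1, c2⟩ := pick D₂ hD₂
    have hS : ((S₁ ∪ S₂) ∩ EP k r p q).card < k := by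
      rw [Finset.union_inter_distrib_right]
      have := Finset.card_union_le (S₁ ∩ EP k r p q) (S₂ ∩ EP k r p q)
      omega
    obtain ⟨i, hi⟩ := exists_rowFree hS
    obtain ⟨c, a1, a2, z', e1, e2⟩ := h3.shift (by omega) hr i
    have hz' : ¬ Sat (lift ρ z') D := fun hs => h1 (sat_congr e1 hs)
    by_cases s1 : Sat (lift ρ z') D₁
    · have s2 : ¬ Sat (lift ρ z') D₂ := fun s2 => hz' (h _ s1 s2)
      exact (hlo D₂ hD₂ z' s2).2 ⟨i, c, a1, a2,
        hi.mono ((c2 ⟨z', s2⟩).trans Finset.subset_union_right) le_rfl le_rfl,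
        z', fun _ _ => rfl, e2⟩
    · exact (hlo D₁ hD₁ z' s1).2 ⟨i, c, a1, a2,
        hi.mono ((b2 ⟨z', s1⟩).trans Finset.subset_union_left) le_rfl le_rfl,
        z', fun _ _ => rfl, e2⟩

theorem card_avoid (W : Finset (Edge k r)) (f : Edge k r → Bool × ZMod 2) :
    (univ.filter fun σ : Restr k r => ∀ e ∈ W, σ e ≠ f e).card * 4 ^ W.card
      = 3 ^ W.card * Fintype.card (Restr k r) := by
  have h : (univ.filter fun σ : Restr k r => ∀ e ∈ W, σ e ≠ f e)
      = Fintype.piFinset fun e => if e ∈ W then univ.erase (f e) else univ := by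
    ext σ
    simp only [mem_filter, mem_univ, true_and, Fintype.mem_piFinset]
    constructor
    · intro h e
      by_cases he : e ∈ W
      · simp [he, h e he]
      · simp [he]
    · intro h e he
      simpa [he] using h e
  have h2 : ∀ n : ℕ, n ^ W.card = ∏ e : Edge k r, if e ∈ W then n else 1 := by
    intro n
    rw [Finset.prod_ite_mem, Finset.univ_inter, Finset.prod_const]
  have h3 : Fintype.card (Restr k r) = ∏ _e : Edge k r, 4 := by
    rw [Fintype.card_fun]
    simp [ZMod.card]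
  rw [h, Fintype.card_piFinset, h2 4, h2 3, h3, ← Finset.prod_mul_distrib,
    ← Finset.prod_mul_distrib]
  refine Finset.prod_congr rfl fun e _ => ?_
  by_cases he : e ∈ W <;> simp [he, ZMod.card]

open Classical in
/-- Restrictions that leave a clause alive although it is wide inside `P`. -/
noncomputable def wide (d : ℕ) (P : Finset (Edge k r)) (D : Clause k r) : Finset (Restr k r) :=
  univ.filter fun σ => d < (edges D ∩ P).card ∧ ∀ l ∈ D, l.1.1 ∈ P → σ l.1.1 ≠ (l.1.2, l.2)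

theorem card_wide (d : ℕ) (P : Finset (Edge k r)) (D : Clause k r) :
    (wide d P D).card * 4 ^ (d + 1) ≤ 3 ^ (d + 1) * Fintype.card (Restr k r) := by
  classical
  by_cases hw : d < (edges D ∩ P).card
  · obtain ⟨W, hW, hc⟩ := Finset.exists_subset_card_eq (show d + 1 ≤ (edges D ∩ P).card from hw)
    have hf : ∀ e, ∃ x : Bool × ZMod 2, e ∈ W → ((e, x.1), x.2) ∈ D := by
      intro e
      by_cases he : e ∈ W
      · obtain ⟨l, hl, rfl⟩ := Finset.mem_image.1 (Finset.mem_inter.1 (hW he)).1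
        exact ⟨(l.1.2, l.2), fun _ => hl⟩
      · exact ⟨(false, 0), fun h => absurd h he⟩
    choose f hf using hf
    rw [← hc, ← card_avoid W f]
    refine Nat.mul_le_mul_right _ (Finset.card_le_card fun σ hσ => ?_)
    refine Finset.mem_filter.2 ⟨mem_univ _, fun e he => ?_⟩
    exact (Finset.mem_filter.1 hσ).2.2 _ (hf e he) (Finset.mem_inter.1 (hW he)).2
  · have : wide d P D = ∅ := Finset.filter_false_of_mem fun σ _ h => hw h.1
    simp [this]

open Classical in
/-- Restrictions that agree inside `P` with one that has the property `Φ`. -/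
noncomputable def satur (P : Finset (Edge k r)) (Φ : Restr k r → Prop) : Finset (Restr k r) :=
  univ.filter fun σ => ∃ ρ, Φ ρ ∧ ∀ e ∈ P, σ e = ρ e

theorem mem_satur {P : Finset (Edge k r)} {Φ : Restr k r → Prop} {σ : Restr k r} :
    σ ∈ satur P Φ ↔ ∃ ρ, Φ ρ ∧ ∀ e ∈ P, σ e = ρ e := by simp [satur]

theorem satur_mul {P L R : Finset (Edge k r)} (hL : L ⊆ P) (hR : R ⊆ P) (hd : Disjoint L R)
    {Φ Φ₁ Φ₂ : Restr k r → Prop} (h1 : ∀ ρ, Φ ρ → Φ₁ ρ) (h2 : ∀ ρ, Φ ρ → Φ₂ ρ) :
    (satur P Φ).card * Fintype.card (Restr k r) ≤ (satur L Φ₁).card * (satur R Φ₂).card := by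
  rw [← Finset.card_univ, ← Finset.card_product, ← Finset.card_product]
  refine Finset.card_le_card_of_injOn (fun x => (fun e => if e ∈ L then x.1 e else x.2 e,
    fun e => if e ∈ L then x.2 e else x.1 e)) ?_ ?_
  · intro x hx
    obtain ⟨ρ, a1, a2⟩ := mem_satur.1 (Finset.mem_product.1 hx).1
    refine Finset.mem_product.2 ⟨mem_satur.2 ⟨ρ, h1 ρ a1, fun e he => ?_⟩,
      mem_satur.2 ⟨ρ, h2 ρ a1, fun e he => ?_⟩⟩
    · simp only [if_pos he]
      exact a2 e (hL he)
    · simp only [if_neg (Finset.disjoint_right.1 hd he)]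
      exact a2 e (hR he)
  · intro x _ y _ e
    refine Prod.ext (funext fun a => ?_) (funext fun a => ?_)
    all_goals
      have e1 := congrFun (congrArg Prod.fst e) a
      have e2 := congrFun (congrArg Prod.snd e) a
      by_cases ha : a ∈ L <;> simp_all

theorem core {o : Fin k × Fin r} {s T d B : ℕ} {mem : ℕ → Finset (Clause k r)}
    (hR : Refutation o s T mem) (hd : 2 * d < k) (hk : 2 ≤ k) (hB : 0 < B)
    (hs : 4 * B ^ 2 * s * 3 ^ (d + 1) ≤ 4 ^ (d + 1)) (h : ℕ) : ∀ p t₁ t₂ : ℕ,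
      p + 2 ^ h * k ≤ r → t₁ ≤ t₂ → t₂ ≤ t₁ + B ^ h → t₂ ≤ T →
      Fintype.card (Restr k r) ≤ 2 * B * (satur (EP k r p (p + 2 ^ h * k)) fun ρ =>
        Lo o d p (p + 2 ^ h * k) ρ (mem t₁) ∧ Hi o d p (p + 2 ^ h * k) ρ (mem t₂)).card →
      False := by
  classical
  have hΩ : 0 < Fintype.card (Restr k r) := Fintype.card_pos
  induction h with
  | zero =>
    intro p t₁ t₂ hp h1 h2 h3 hc
    obtain ⟨σ, hσ⟩ : (satur (EP k r p (p + 2 ^ 0 * k)) fun ρ =>
        Lo o d p (p + 2 ^ 0 * k) ρ (mem t₁) ∧ Hi o d p (p + 2 ^ 0 * k) ρ (mem t₂)).Nonempty := by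
      rw [← Finset.card_pos]
      by_contra h0
      rw [Nat.eq_zero_of_not_pos h0] at hc
      omega
    obtain ⟨ρ, ⟨hlo, D, hD, z, a1, a2, a3⟩, -⟩ := mem_satur.1 hσ
    rcases Nat.eq_or_lt_of_le h1 with e | e
    · subst e
      exact (hlo D hD z a1).2 a3
    · have e' : t₂ = t₁ + 1 := by simp at h2; omega
      subst e'
      exact one_step hd hk (by simp) hp hlo a1 a2 a3 (hR.step t₁ (by omega) D hD)
  | succ h ih =>
    intro p t₁ t₂ hp h1 h2 h3 hc
    have e2 : 2 ^ (h + 1) * k = 2 ^ h * k + 2 ^ h * k := by ring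
    have e3 : k ≤ 2 ^ h * k := Nat.le_mul_of_pos_left _ (by positivity)
    set q := p + 2 ^ (h + 1) * k with hq
    set Ω := Fintype.card (Restr k r) with hΩ'
    let τ : ℕ → ℕ := fun j => min (t₁ + j * B ^ h) t₂
    have hτ0 : τ 0 = t₁ := by simp [τ, h1]
    have hτB : τ B = t₂ := by
      have : B ^ (h + 1) = B * B ^ h := by ring
      simp only [τ]
      omega
    let bad : Finset (Restr k r) := (Finset.range B).biUnion fun j =>
      (mem (τ j)).biUnion (wide d (EP k r p q))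
    have hbad : 4 * B * bad.card ≤ Ω := by
      have a1 : bad.card * 4 ^ (d + 1) ≤ B * (s * (3 ^ (d + 1) * Ω)) := by
        refine le_trans (Nat.mul_le_mul_right _ Finset.card_biUnion_le) ?_
        rw [Finset.sum_mul]
        refine le_trans (Finset.sum_le_card_nsmul _ _ (s * (3 ^ (d + 1) * Ω)) fun j _ => ?_)
          (by simp)
        refine le_trans (Nat.mul_le_mul_right _ Finset.card_biUnion_le) ?_
        rw [Finset.sum_mul]
        refine le_trans (Finset.sum_le_card_nsmul _ _ _ fun D _ => card_wide d _ D) ?_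
        rw [smul_eq_mul]
        exact Nat.mul_le_mul_right _ (hR.space _ (le_trans (min_le_right _ _) h3))
      refine Nat.le_of_mul_le_mul_right ?_ (show 0 < 4 ^ (d + 1) by positivity)
      calc 4 * B * bad.card * 4 ^ (d + 1) = 4 * B * (bad.card * 4 ^ (d + 1)) := by ring
        _ ≤ 4 * B * (B * (s * (3 ^ (d + 1) * Ω))) := Nat.mul_le_mul_left _ a1
        _ = Ω * (4 * B ^ 2 * s * 3 ^ (d + 1)) := by ring
        _ ≤ _ := Nat.mul_le_mul_left _ hs
    let A : ℕ → Finset (Restr k r) := fun j => satur (EP k r p q) fun ρ =>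
      Lo o d p q ρ (mem (τ j)) ∧ Hi o d p q ρ (mem (τ (j + 1)))
    have hcover : (satur (EP k r p q) fun ρ => Lo o d p q ρ (mem t₁) ∧ Hi o d p q ρ (mem t₂))
        ⊆ bad ∪ (Finset.range B).biUnion A := by
      intro σ hσ
      obtain ⟨ρ, ⟨hlo, hhi⟩, hag⟩ := mem_satur.1 hσ
      by_cases hb : σ ∈ bad
      · exact Finset.mem_union_left _ hb
      have dich : ∀ j ≤ B, ¬ Hi o d p q ρ (mem (τ j)) → Lo o d p q ρ (mem (τ j)) := by
        intro j hj hn D hD z hz
        have hjB : j < B := by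
          rcases Nat.eq_or_lt_of_le hj with e | e
          · subst e
            rw [hτB] at hn
            exact absurd hhi hn
          · exact e
        have hnar : (edges D ∩ EP k r p q).card ≤ d := by
          by_contra hw
          refine hb (Finset.mem_biUnion.2 ⟨j, Finset.mem_range.2 hjB, Finset.mem_biUnion.2
            ⟨D, hD, Finset.mem_filter.2 ⟨mem_univ _, by omega, fun l hl hP e => hz ⟨l, hl, ?_⟩⟩⟩⟩)
          rw [hag _ hP] at e
          simp [lift, e]
        exact ⟨hnar, fun hh => hn ⟨D, hD, z, hz, hnar, hh⟩⟩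
      have : ∀ n ≤ B, Lo o d p q ρ (mem (τ n)) ∨
          ∃ j < n, Lo o d p q ρ (mem (τ j)) ∧ Hi o d p q ρ (mem (τ (j + 1))) := by
        intro n
        induction n with
        | zero => exact fun _ => Or.inl (hτ0 ▸ hlo)
        | succ n ihn =>
          intro hn
          rcases ihn (by omega) with a | ⟨j, hj, a⟩
          · by_cases b : Hi o d p q ρ (mem (τ (n + 1)))
            · exact Or.inr ⟨n, by omega, a, b⟩
            · exact Or.inl (dich _ hn b)
          · exact Or.inr ⟨j, by omega, a⟩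
      rcases this B le_rfl with a | ⟨j, hj, a⟩
      · rw [hτB] at a
        obtain ⟨D, hD, z, b1, -, b3⟩ := hhi
        exact absurd b3 (a D hD z b1).2
      · exact Finset.mem_union_right _ (Finset.mem_biUnion.2
          ⟨j, Finset.mem_range.2 hj, mem_satur.2 ⟨ρ, a, hag⟩⟩)
    obtain ⟨j, hj, hmax⟩ := Finset.exists_max_image (Finset.range B) (fun j => (A j).card)
      ⟨0, Finset.mem_range.2 hB⟩
    have hA : Ω ≤ 4 * B ^ 2 * (A j).card := by
      have a1 := (Finset.card_le_card hcover).trans (Finset.card_union_le _ _)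
      have a2 : ((Finset.range B).biUnion A).card ≤ B * (A j).card := by
        refine le_trans Finset.card_biUnion_le ?_
        exact le_trans (Finset.sum_le_card_nsmul _ _ _ hmax) (by simp)
      have a3 := Nat.mul_le_mul_left (2 * B) (a1.trans (Nat.add_le_add_left a2 _))
      nlinarith
    have hmul := satur_mul (P := EP k r p q) (L := EP k r p (p + 2 ^ h * k))
      (R := EP k r (p + 2 ^ h * k) (p + 2 ^ h * k + 2 ^ h * k))
      (EP_mono le_rfl (by omega)) (EP_mono (by omega) (by omega))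
      (Finset.disjoint_left.2 fun e a b => by rw [mem_EP] at a b; omega)
      (Φ := fun ρ => Lo o d p q ρ (mem (τ j)) ∧ Hi o d p q ρ (mem (τ (j + 1))))
      (Φ₁ := fun ρ => Lo o d p (p + 2 ^ h * k) ρ (mem (τ j)) ∧
        Hi o d p (p + 2 ^ h * k) ρ (mem (τ (j + 1))))
      (Φ₂ := fun ρ => Lo o d (p + 2 ^ h * k) (p + 2 ^ h * k + 2 ^ h * k) ρ (mem (τ j)) ∧
        Hi o d (p + 2 ^ h * k) (p + 2 ^ h * k + 2 ^ h * k) ρ (mem (τ (j + 1))))
      (fun ρ a => ⟨a.1.shrink (by omega) le_rfl (by omega) (by omega) hp,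
        a.2.shrink le_rfl (by omega) (by omega) hp⟩)
      (fun ρ a => ⟨a.1.shrink (by omega) (by omega) (by omega) (by omega) hp,
        a.2.shrink (by omega) (by omega) (by omega) hp⟩)
    have t1 : τ j ≤ τ (j + 1) := by
      simp only [τ]
      rw [add_mul, one_mul]
      omega
    have t2 : τ (j + 1) ≤ τ j + B ^ h := by
      simp only [τ]
      rw [add_mul, one_mul]
      omega
    have t3 : τ (j + 1) ≤ T := le_trans (min_le_right _ _) h3
    have n1 := not_le.1 (ih p _ _ (by omega) t1 t2 t3)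
    have n2 := not_le.1 (ih (p + 2 ^ h * k) _ _ (by omega) t1 t2 t3)
    have n3 := Nat.mul_lt_mul'' n1 n2
    have n4 := Nat.mul_le_mul_right Ω hA
    have n5 := Nat.mul_le_mul_left (4 * B ^ 2) hmul
    rw [← hΩ'] at n5
    nlinarith

theorem tradeoff {o : Fin k × Fin r} {s T L B : ℕ} {mem : ℕ → Finset (Clause k r)}
    (hk : 2 ≤ k) (hL : 2 ^ L * k ≤ r) (hB : 1 ≤ B) (hs : (4 * B ^ 2 * s) ^ 2 * 3 ^ k ≤ 4 ^ k)
    (hR : Refutation o s T mem) : B ^ L < T := by
  classical
  by_contra hT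
  have e3 : k ≤ 2 ^ L * k := Nat.le_mul_of_pos_left _ (by positivity)
  refine core hR (d := (k - 1) / 2) (by omega) hk hB ?_ L 0 0 T (by omega) (Nat.zero_le _)
    (by omega) le_rfl ?_
  · obtain ⟨n, hn⟩ : ∃ n, 2 * ((k - 1) / 2 + 1) = k + n := ⟨2 * ((k - 1) / 2 + 1) - k, by omega⟩
    refine le_of_pow_le_pow_left₀ (show 2 ≠ 0 by norm_num) (by positivity) ?_
    rw [mul_pow, ← pow_mul 3, ← pow_mul 4, mul_comm ((k - 1) / 2 + 1) 2, hn, pow_add, pow_add, ← mul_assoc]
    exact Nat.mul_le_mul hs (Nat.pow_le_pow_left (by norm_num) n)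
  · have : (satur (EP k r 0 (0 + 2 ^ L * k)) fun ρ =>
        Lo o ((k - 1) / 2) 0 (0 + 2 ^ L * k) ρ (mem 0) ∧
        Hi o ((k - 1) / 2) 0 (0 + 2 ^ L * k) ρ (mem T)) = univ := by
      refine Finset.eq_univ_of_forall fun σ => mem_satur.2 ⟨σ, ⟨?_, ?_⟩, fun _ _ => rfl⟩
      · simp [Lo, hR.start]
      · refine ⟨∅, hR.finish, fun _ => 0, by simp [Sat], by simp [edges], ?_⟩
        have h0 : High o 0 r (edges ∅) fun _ => 0 :=
          ⟨o.1, o.2, Nat.zero_le _, o.2.2, fun _ _ _ _ _ => by simp [edges], fun _ => 0,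
            fun _ _ => rfl, fun u => by simp [CharTwo.add_self_eq_zero]⟩
        exact h0.shrink le_rfl (by omega) (by omega) le_rfl
    rw [this, Finset.card_univ]
    exact Nat.le_mul_of_pos_left _ (by omega)

end Pool.Agent.P.MP_838544_lc.Res
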