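import Mathlib

/-!
A full range lemma for the index gadget: if a set of pointer vectors is spread, then all but an
exponentially small fraction of the tables show a prescribed pattern at one of the vectors.
-/

namespace Pool.Agent.P.MP_838544_lc

open Finset

theorem card_agree {ι Z : Type} [Fintype ι] [DecidableEq ι] [Fintype Z] [DecidableEq Z]
    (Q : Finset ι) (c : ι → Z) :
    (univ.filter fun ω : ι → Z => ∀ p ∈ Q, ω p = c p).card * Fintype.card Z ^ Q.card
      = Fintype.card Z ^ Fintype.card ι := by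
  have h : (univ.filter fun ω : ι → Z => ∀ p ∈ Q, ω p = c p)
      = Fintype.piFinset fun p => if p ∈ Q then {c p} else univ := by
    ext ω
    simp only [mem_filter, mem_univ, true_and, Fintype.mem_piFinset]
    constructor
    · intro h p
      by_cases hp : p ∈ Q
      · simp [hp, h p hp]
      · simp [hp]
    · intro h p hp
      simpa [hp] using h p
  have h2 : Fintype.card Z ^ Q.card = ∏ p : ι, if p ∈ Q then Fintype.card Z else 1 := by
    rw [Finset.prod_ite_mem, Finset.univ_inter, Finset.prod_const]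
  rw [h, Fintype.card_piFinset, h2, ← Finset.prod_mul_distrib, ← Finset.card_univ (α := ι),
    ← Finset.prod_const]
  refine Finset.prod_congr rfl fun p _ => ?_
  by_cases hp : p ∈ Q <;> simp [hp]

variable {V β : Type} [Fintype V] [DecidableEq V] [Fintype β] [DecidableEq β]

/-- The number of vectors of `X` that agree with `x₀` on `S`. -/
def cnt (X : Finset (V → β)) (S : Finset V) (x₀ : V → β) : ℕ :=
  (X.filter fun x => ∀ v ∈ S, x v = x₀ v).card

omit [Fintype β] in
theorem sum_pow_agree (X : Finset (V → β)) (F : Finset V) (κ ζ : ℕ) (hκ : 0 < κ)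
    (hsp : ∀ T ⊆ F, ∀ x₀, cnt X T x₀ * κ ^ T.card ≤ 4 * X.card) (h5 : 5 * F.card * ζ ≤ κ)
    (x : V → β) :
    ∑ x' ∈ X, (ζ : ℝ) ^ (F.filter fun v => x' v = x v).card ≤ 2 * X.card := by
  have hκ' : (0 : ℝ) < κ := by exact_mod_cast hκ
  set u : ℝ := ζ / κ with hu
  have hu0 : 0 ≤ u := by positivity
  have h1 : ∑ x' ∈ X, (ζ : ℝ) ^ (F.filter fun v => x' v = x v).card
      ≤ ∑ x' ∈ X, ∑ T ∈ F.powerset,
          if ∀ v ∈ T, x' v = x v then (ζ : ℝ) ^ T.card else 0 := by
    refine Finset.sum_le_sum fun x' _ => ?_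
    have hm : (F.filter fun v => x' v = x v) ∈ F.powerset :=
      Finset.mem_powerset.2 (Finset.filter_subset _ _)
    refine le_trans ?_ (Finset.single_le_sum (f := fun T : Finset V =>
      if ∀ v ∈ T, x' v = x v then (ζ : ℝ) ^ T.card else 0) ?_ hm)
    · rw [if_pos]
      intro v hv
      exact (Finset.mem_filter.1 hv).2
    · intro T _
      split_ifs <;> positivity
  have h2 : ∀ T ∈ F.powerset, ∑ x' ∈ X, (if ∀ v ∈ T, x' v = x v then (ζ : ℝ) ^ T.card else 0)
      ≤ 4 * X.card * u ^ T.card - if T = ∅ then 3 * (X.card : ℝ) else 0 := by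
    intro T hT
    rw [← Finset.sum_filter, Finset.sum_const, nsmul_eq_mul]
    by_cases h0 : T = ∅
    · subst h0
      simp
      linarith
    · rw [if_neg h0, sub_zero, hu, div_pow]
      have := hsp T (Finset.mem_powerset.1 hT) x
      have h3 : (cnt X T x : ℝ) * (κ : ℝ) ^ T.card ≤ 4 * X.card := by exact_mod_cast this
      have h4 : (0 : ℝ) < (κ : ℝ) ^ T.card := by positivity
      change (cnt X T x : ℝ) * _ ≤ _
      rw [mul_div_assoc', le_div_iff₀ h4]
      have h6 : (0 : ℝ) ≤ (ζ : ℝ) ^ T.card := by positivity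
      nlinarith
  have h3 : ∑ T ∈ F.powerset, u ^ T.card = (1 + u) ^ F.card := by
    rw [← Finset.prod_const, Finset.prod_one_add]
    simp
  have h4 : (1 + u) ^ F.card ≤ 5 / 4 := by
    have a1 : (1 + u) ^ F.card ≤ Real.exp u ^ F.card :=
      pow_le_pow_left₀ (by positivity) (by linarith [Real.add_one_le_exp u]) _
    have a2 : (F.card : ℝ) * u ≤ 1 / 5 := by
      have : (5 : ℝ) * F.card * ζ ≤ κ := by exact_mod_cast h5
      rw [hu, mul_div_assoc', div_le_iff₀ hκ']
      linarith
    have a3 : Real.exp (1 / 5) ≤ 5 / 4 := by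
      have b1 := Real.add_one_le_exp (-(1 / 5 : ℝ))
      have b2 : Real.exp (1 / 5) * Real.exp (-(1 / 5 : ℝ)) = 1 := by
        rw [← Real.exp_add]; simp
      have b3 := Real.exp_pos (1 / 5)
      nlinarith
    rw [← Real.exp_nat_mul] at a1
    exact a1.trans ((Real.exp_le_exp.2 a2).trans a3)
  rw [Finset.sum_comm] at h1
  refine h1.trans ((Finset.sum_le_sum h2).trans ?_)
  rw [Finset.sum_sub_distrib, ← Finset.mul_sum, h3, Finset.sum_ite_eq' F.powerset ∅,
    if_pos (Finset.empty_mem_powerset F)]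
  have : (0 : ℝ) ≤ X.card := by positivity
  nlinarith

/-- Second moment bound: at most half of the tables miss all the patterns. -/
theorem miss_half {Z : Type} [Fintype Z] [DecidableEq Z] [Nonempty Z]
    (X : Finset (V → β)) (hX : X.Nonempty) (F : Finset V) (κ : ℕ) (hκ : 0 < κ)
    (hsp : ∀ T ⊆ F, ∀ x₀, cnt X T x₀ * κ ^ T.card ≤ 4 * X.card)
    (h5 : 5 * F.card * Fintype.card Z ≤ κ) (π : (V → β) → V → Z) :
    2 * (univ.filter fun ω : V × β → Z => ∀ x ∈ X, ∃ v ∈ F, ω (v, x v) ≠ π x v).card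
      ≤ Fintype.card Z ^ Fintype.card (V × β) := by
  classical
  set ζ := Fintype.card Z with hζ
  have hζ0 : (0 : ℝ) < ζ := by exact_mod_cast Fintype.card_pos
  set Ω : ℝ := (ζ : ℝ) ^ Fintype.card (V × β) with hΩ
  have hΩ0 : 0 < Ω := by positivity
  let hit : (V → β) → (V × β → Z) → Prop := fun x ω => ∀ v ∈ F, ω (v, x v) = π x v
  let pts : (V → β) → Finset (V × β) := fun x => F.image fun v => (v, x v)
  have hpts : ∀ x, (pts x).card = F.card := fun x =>
    Finset.card_image_of_injective _ fun a b e => congrArg Prod.fst e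
  have h1 : ∀ x, ((univ.filter (hit x)).card : ℝ) = Ω / (ζ : ℝ) ^ F.card := by
    intro x
    have := card_agree (pts x) (fun p : V × β => π x p.1)
    rw [hpts] at this
    have e : (univ.filter fun ω : V × β → Z => ∀ p ∈ pts x, ω p = π x p.1)
        = univ.filter (hit x) := by
      ext ω
      simp [pts, hit]
    rw [e] at this
    rw [eq_div_iff (by positivity), hΩ]
    exact_mod_cast this
  have h2 : ∀ x x', ((univ.filter fun ω => hit x ω ∧ hit x' ω).card : ℝ)
      ≤ Ω / (ζ : ℝ) ^ (2 * F.card) * (ζ : ℝ) ^ (F.filter fun v => x' v = x v).card := by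
    intro x x'
    rcases (univ.filter fun ω => hit x ω ∧ hit x' ω).eq_empty_or_nonempty with h0 | ⟨ω₀, h0⟩
    · rw [h0]
      simp only [Finset.card_empty, Nat.cast_zero]
      positivity
    have h0' := (Finset.mem_filter.1 h0).2
    have a1 := card_agree (pts x ∪ pts x') ω₀
    have a2 : (univ.filter fun ω => hit x ω ∧ hit x' ω)
        ⊆ univ.filter fun ω : V × β → Z => ∀ p ∈ pts x ∪ pts x', ω p = ω₀ p := by
      intro ω hω
      have hω' := (Finset.mem_filter.1 hω).2
      refine Finset.mem_filter.2 ⟨mem_univ _, fun p hp => ?_⟩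
      rcases Finset.mem_union.1 hp with hp | hp
      · obtain ⟨v, hv, rfl⟩ := Finset.mem_image.1 hp
        rw [hω'.1 v hv, h0'.1 v hv]
      · obtain ⟨v, hv, rfl⟩ := Finset.mem_image.1 hp
        rw [hω'.2 v hv, h0'.2 v hv]
    have a3 : (pts x ∩ pts x').card ≤ (F.filter fun v => x' v = x v).card := by
      refine le_trans (Finset.card_le_card (t := (F.filter fun v => x' v = x v).image
        fun v => (v, x v)) ?_) Finset.card_image_le
      intro p hp
      obtain ⟨hp1, hp2⟩ := Finset.mem_inter.1 hp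
      obtain ⟨v, hv, rfl⟩ := Finset.mem_image.1 hp1
      obtain ⟨v', _, e⟩ := Finset.mem_image.1 hp2
      have e1 : v' = v := congrArg Prod.fst e
      subst e1
      exact Finset.mem_image.2 ⟨v', Finset.mem_filter.2 ⟨hv, congrArg Prod.snd e⟩, rfl⟩
    have a4 := Finset.card_union_add_card_inter (pts x) (pts x')
    rw [hpts, hpts] at a4
    have a5 : (1 : ℝ) ≤ ζ := by exact_mod_cast Fintype.card_pos
    have a6 : (ζ : ℝ) ^ (2 * F.card)
        ≤ (ζ : ℝ) ^ (pts x ∪ pts x').card * (ζ : ℝ) ^ (F.filter fun v => x' v = x v).card := by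
      rw [← pow_add]
      exact pow_le_pow_right₀ a5 (by omega)
    have a7 : ((univ.filter fun ω => hit x ω ∧ hit x' ω).card : ℝ)
        * (ζ : ℝ) ^ (pts x ∪ pts x').card ≤ Ω := by
      have := Nat.mul_le_mul_right (ζ ^ (pts x ∪ pts x').card) (Finset.card_le_card a2)
      rw [a1] at this
      rw [hΩ]
      exact_mod_cast this
    rw [div_mul_eq_mul_div, le_div_iff₀ (by positivity)]
    calc _ ≤ ((univ.filter fun ω => hit x ω ∧ hit x' ω).card : ℝ) *
          ((ζ : ℝ) ^ (pts x ∪ pts x').card * (ζ : ℝ) ^ (F.filter fun v => x' v = x v).card) :=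
          mul_le_mul_of_nonneg_left a6 (by positivity)
      _ ≤ _ := by
          rw [← mul_assoc]
          exact mul_le_mul_of_nonneg_right a7 (by positivity)
  let N : (V × β → Z) → ℝ := fun ω => ∑ x ∈ X, if hit x ω then 1 else 0
  let good : Finset (V × β → Z) := univ.filter fun ω => ∃ x ∈ X, hit x ω
  have hN1 : ∑ ω ∈ good, N ω = X.card * (Ω / (ζ : ℝ) ^ F.card) := by
    have e : ∑ ω ∈ good, N ω = ∑ ω, N ω := by
      refine Finset.sum_subset (Finset.subset_univ _) fun ω _ hω => ?_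
      refine Finset.sum_eq_zero fun x hx => if_neg fun h => hω ?_
      exact Finset.mem_filter.2 ⟨mem_univ _, x, hx, h⟩
    rw [e]
    simp only [N]
    rw [Finset.sum_comm]
    have e1 : ∀ x ∈ X, (∑ ω : V × β → Z, if hit x ω then (1 : ℝ) else 0)
        = Ω / (ζ : ℝ) ^ F.card := by
      intro x _
      rw [← h1 x, Finset.card_filter]
      push_cast
      rfl
    rw [Finset.sum_congr rfl e1, Finset.sum_const, nsmul_eq_mul]
  have hN2 : ∑ ω ∈ good, N ω ^ 2 ≤ 2 * (X.card : ℝ) ^ 2 * (Ω / (ζ : ℝ) ^ (2 * F.card)) := by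
    have e : ∑ ω ∈ good, N ω ^ 2 ≤ ∑ ω, N ω ^ 2 :=
      Finset.sum_le_sum_of_subset_of_nonneg (Finset.subset_univ _) fun _ _ _ => by positivity
    refine e.trans ?_
    have e2 : ∀ ω, N ω ^ 2 = ∑ x ∈ X, ∑ x' ∈ X, if hit x ω ∧ hit x' ω then (1 : ℝ) else 0 := by
      intro ω
      simp only [N]
      rw [sq, Finset.sum_mul_sum]
      refine Finset.sum_congr rfl fun x _ => Finset.sum_congr rfl fun x' _ => ?_
      by_cases a : hit x ω <;> by_cases b : hit x' ω <;> simp [a, b]
    simp only [e2]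
    rw [Finset.sum_comm]
    have e3 : ∀ x ∈ X, ∑ ω : V × β → Z, ∑ x' ∈ X, (if hit x ω ∧ hit x' ω then (1 : ℝ) else 0)
        ≤ Ω / (ζ : ℝ) ^ (2 * F.card) * (2 * X.card) := by
      intro x _
      rw [Finset.sum_comm]
      have e4 : ∀ x' ∈ X, (∑ ω : V × β → Z, if hit x ω ∧ hit x' ω then (1 : ℝ) else 0)
          ≤ Ω / (ζ : ℝ) ^ (2 * F.card) * (ζ : ℝ) ^ (F.filter fun v => x' v = x v).card := by
        intro x' _
        refine le_trans (le_of_eq ?_) (h2 x x')
        rw [Finset.card_filter]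
        push_cast
        rfl
      refine (Finset.sum_le_sum e4).trans ?_
      rw [← Finset.mul_sum]
      exact mul_le_mul_of_nonneg_left (sum_pow_agree X F κ ζ hκ hsp h5 x) (by positivity)
    refine (Finset.sum_le_sum e3).trans (le_of_eq ?_)
    rw [Finset.sum_const, nsmul_eq_mul]
    ring
  have hcs : (∑ ω ∈ good, N ω) ^ 2 ≤ good.card * ∑ ω ∈ good, N ω ^ 2 :=
    sq_sum_le_card_mul_sum_sq
  have hX0 : (0 : ℝ) < X.card := by exact_mod_cast hX.card_pos
  have hg : Ω ≤ 2 * good.card := by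
    have a1 : (X.card * (Ω / (ζ : ℝ) ^ F.card)) ^ 2
        ≤ good.card * (2 * (X.card : ℝ) ^ 2 * (Ω / (ζ : ℝ) ^ (2 * F.card))) := by
      rw [← hN1]
      exact hcs.trans (mul_le_mul_of_nonneg_left hN2 (by positivity))
    have a2 : (X.card * (Ω / (ζ : ℝ) ^ F.card)) ^ 2
        = Ω * ((X.card : ℝ) ^ 2 * (Ω / (ζ : ℝ) ^ (2 * F.card))) := by
      rw [pow_mul']
      field_simp
    have a3 : (0 : ℝ) < (X.card : ℝ) ^ 2 * (Ω / (ζ : ℝ) ^ (2 * F.card)) := by positivity
    rw [a2] at a1
    refine le_of_mul_le_mul_right ?_ a3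
    linarith
  have hsplit := Finset.card_filter_add_card_filter_not (s := (univ : Finset (V × β → Z)))
    (fun ω => ∃ x ∈ X, hit x ω)
  have e : (univ.filter fun ω : V × β → Z => ∀ x ∈ X, ∃ v ∈ F, ω (v, x v) ≠ π x v)
      = univ.filter fun ω => ¬ ∃ x ∈ X, hit x ω := by
    ext ω
    simp [hit]
  rw [e]
  have hc : ((univ : Finset (V × β → Z)).card : ℝ) = Ω := by
    rw [Finset.card_univ, Fintype.card_fun, hΩ]
    push_cast
    rfl
  have : (2 : ℝ) * (univ.filter fun ω => ¬ ∃ x ∈ X, hit x ω).card ≤ Ω := by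
    have h3 : (good.card : ℝ) + (univ.filter fun ω => ¬ ∃ x ∈ X, hit x ω).card = Ω := by
      rw [← hc]
      exact_mod_cast hsplit
    linarith
  rw [hΩ] at this
  exact_mod_cast this

/-- Full range lemma: all but a `2^(-G)` fraction of the tables show one of the patterns. -/
theorem miss_exp {A : Type} [Fintype A] [DecidableEq A] [Nonempty A]
    (X : Finset (V → β)) (hX : X.Nonempty) (F : Finset V) (κ G : ℕ) (hκ : 0 < κ) (hG : 0 < G)
    (hsp : ∀ T ⊆ F, ∀ x₀, cnt X T x₀ * κ ^ T.card ≤ 4 * X.card)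
    (h5 : 5 * F.card * (G * Fintype.card A) ≤ κ) (π : (V → β) → V → A) :
    2 ^ G * (univ.filter fun y : V × β → A => ∀ x ∈ X, ∃ v ∈ F, y (v, x v) ≠ π x v).card
      ≤ Fintype.card A ^ Fintype.card (V × β) := by
  classical
  have : Nonempty (Fin G) := ⟨⟨0, hG⟩⟩
  set a := Fintype.card A with ha
  set n := Fintype.card (V × β) with hn
  have ha0 : (0 : ℝ) < a := by exact_mod_cast Fintype.card_pos
  have hΩ0 : (0 : ℝ) < (a : ℝ) ^ n := by positivity
  let fail : Fin G → (V × β → Fin G) → Finset (V × β → A) := fun g c =>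
    univ.filter fun y => ∀ x ∈ X, ∃ v ∈ F, (c (v, x v), y (v, x v)) ≠ (g, π x v)
  have h1 : ∀ g, 2 * ∑ c, (fail g c).card ≤ G ^ n * a ^ n := by
    intro g
    have h := miss_half (Z := Fin G × A) X hX F κ hκ hsp (by simpa using h5)
      (fun x v => (g, π x v))
    rw [Fintype.card_prod, Fintype.card_fin, mul_pow] at h
    refine le_trans (Nat.mul_le_mul_left 2 ?_) h
    rw [← Finset.card_sigma]
    refine Finset.card_le_card_of_injOn (fun q p => (q.1 p, q.2 p)) ?_ ?_
    · intro q hq
      have := (Finset.mem_sigma.1 hq).2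
      simpa [fail] using this
    · rintro ⟨c, y⟩ _ ⟨c', y'⟩ _ e
      have e1 : c = c' := funext fun p => congrArg Prod.fst (congrFun e p)
      have e2 : y = y' := funext fun p => congrArg Prod.snd (congrFun e p)
      subst e1 e2
      rfl
  obtain ⟨c, -, hc⟩ : ∃ c ∈ (univ : Finset (V × β → Fin G)),
      2 * ∑ g, (fail g c).card ≤ G * a ^ n := by
    refine Finset.exists_le_of_sum_le Finset.univ_nonempty ?_
    rw [← Finset.mul_sum, Finset.sum_comm, Finset.mul_sum]
    refine (Finset.sum_le_sum fun g _ => h1 g).trans (le_of_eq ?_)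
    simp only [Finset.sum_const, Finset.card_univ, Fintype.card_fin, Fintype.card_fun, smul_eq_mul]
    rw [← hn]
    ring
  have h2 : (2 : ℝ) ^ G * ∏ g, ((fail g c).card : ℝ) ≤ ((a : ℝ) ^ n) ^ G := by
    have a1 : ∀ g, 2 * ((fail g c).card : ℝ)
        ≤ (a : ℝ) ^ n * Real.exp (2 * (fail g c).card / (a : ℝ) ^ n - 1) := by
      intro g
      have := Real.add_one_le_exp (2 * (fail g c).card / (a : ℝ) ^ n - 1)
      rw [sub_add_cancel, div_le_iff₀ hΩ0] at this
      linarith
    have a2 : (2 : ℝ) ^ G * ∏ g, ((fail g c).card : ℝ) = ∏ g, 2 * ((fail g c).card : ℝ) := by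
      rw [Finset.prod_mul_distrib]
      simp
    rw [a2]
    refine (Finset.prod_le_prod (fun g _ => by positivity) fun g _ => a1 g).trans ?_
    rw [Finset.prod_mul_distrib, ← Real.exp_sum]
    simp only [Finset.prod_const, Finset.card_univ, Fintype.card_fin]
    refine mul_le_of_le_one_right (by positivity) (Real.exp_le_one_iff.2 ?_)
    rw [Finset.sum_sub_distrib, ← Finset.sum_div, ← Finset.mul_sum]
    simp only [Finset.sum_const, Finset.card_univ, Fintype.card_fin, nsmul_eq_mul, mul_one]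
    rw [sub_nonpos, div_le_iff₀ hΩ0]
    exact_mod_cast hc
  set bad := univ.filter fun y : V × β → A => ∀ x ∈ X, ∃ v ∈ F, y (v, x v) ≠ π x v with hbad
  let mix : (Fin G × (V × β) → A) → (V × β → A) := fun ys p => ys (c p, p)
  have h3 : ∀ y, (univ.filter fun ys => mix ys = y).card * a ^ n = (a ^ n) ^ G := by
    intro y
    have h := card_agree (univ.image fun p : V × β => (c p, p)) (fun q : Fin G × (V × β) => y q.2)
    rw [Finset.card_image_of_injective _ (fun p q e => congrArg Prod.snd e), Finset.card_univ,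
      Fintype.card_prod (Fin G), Fintype.card_fin, ← hn, ← ha, pow_mul'] at h
    rw [← h]
    congr 2
    ext ys
    simp only [Finset.mem_filter, mem_univ, true_and, Finset.forall_mem_image, mix, funext_iff]
    exact ⟨fun h p _ => h p, fun h p => h trivial⟩
  have h4 : (univ.filter fun ys => mix ys ∈ bad).card * a ^ n = bad.card * (a ^ n) ^ G := by
    rw [Finset.card_eq_sum_card_fiberwise (f := mix) (s := univ.filter fun ys => mix ys ∈ bad)
      (t := bad) (fun ys hys => (Finset.mem_filter.1 hys).2), Finset.sum_mul,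
      ← smul_eq_mul bad.card, ← Finset.sum_const]
    refine Finset.sum_congr rfl fun y hy => ?_
    rw [← h3 y]
    congr 2
    ext ys
    simp only [Finset.mem_filter, mem_univ, true_and]
    exact ⟨fun h => h.2, fun h => ⟨h ▸ hy, h⟩⟩
  have h5' : (univ.filter fun ys => mix ys ∈ bad).card ≤ ∏ g, (fail g c).card := by
    rw [← Fintype.card_piFinset]
    refine Finset.card_le_card_of_injOn (fun ys g p => ys (g, p)) ?_ ?_
    · intro ys hys
      have hb := (Finset.mem_filter.1 (Finset.mem_filter.1 hys).2).2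
      refine Fintype.mem_piFinset.2 fun g => Finset.mem_filter.2 ⟨mem_univ _, fun x hx => ?_⟩
      obtain ⟨v, hv, hne⟩ := hb x hx
      refine ⟨v, hv, fun e => hne ?_⟩
      have e1 : c (v, x v) = g := congrArg Prod.fst e
      have e2 : ys (g, (v, x v)) = π x v := congrArg Prod.snd e
      simp only [mix]
      rw [e1, e2]
    · intro ys _ ys' _ e
      funext q
      exact congrFun (congrFun e q.1) q.2
  have h6 : (bad.card : ℝ) * ((a : ℝ) ^ n) ^ G ≤ (∏ g, ((fail g c).card : ℝ)) * (a : ℝ) ^ n := by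
    have := Nat.mul_le_mul_right (a ^ n) h5'
    rw [h4] at this
    exact_mod_cast this
  have h7 : (2 : ℝ) ^ G * bad.card ≤ (a : ℝ) ^ n := by
    have b1 : (0 : ℝ) < ((a : ℝ) ^ n) ^ G := by positivity
    refine le_of_mul_le_mul_right ?_ b1
    calc (2 : ℝ) ^ G * bad.card * ((a : ℝ) ^ n) ^ G
        = (2 : ℝ) ^ G * (bad.card * ((a : ℝ) ^ n) ^ G) := by ring
      _ ≤ (2 : ℝ) ^ G * ((∏ g, ((fail g c).card : ℝ)) * (a : ℝ) ^ n) :=
          mul_le_mul_of_nonneg_left h6 (by positivity)
      _ = ((2 : ℝ) ^ G * ∏ g, ((fail g c).card : ℝ)) * (a : ℝ) ^ n := by ring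
      _ ≤ ((a : ℝ) ^ n) ^ G * (a : ℝ) ^ n := mul_le_mul_of_nonneg_right h2 hΩ0.le
      _ = _ := by ring
  exact_mod_cast h7

end Pool.Agent.P.MP_838544_lc
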