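import Mathlib
import Pool.Agent.P.MP_838544_lc.Defs

/-!
The unsatisfiable parity constraint problem on the layered complete graph, and the notion of a
high assignment: one that extends to an edge labelling whose only violated vertex lies in a
given region.
-/

namespace Pool.Agent.P.MP_838544_lc

open Finset

/-- Positions: a layer and a colour. -/
abbrev Pos (r k : ℕ) := Fin r × Fin k

/-- Local views: one bit for every possible neighbour. -/
abbrev Alph (k : ℕ) := Fin k × ZMod 3 → ZMod 2

variable {r k : ℕ}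

/-- Distinct positions in equal or consecutive layers. -/
def Nb (u v : Pos r k) : Prop := u ≠ v ∧ Near u.1 v.1

instance : DecidableRel (Nb (r := r) (k := k)) := fun u v => by
  unfold Nb Near; infer_instance

theorem Nb.symm {u v : Pos r k} (h : Nb u v) : Nb v u := ⟨h.1.symm, h.2.2, h.2.1⟩

/-- The name under which a position is known to its neighbours. -/
def idx (v : Pos r k) : Fin k × ZMod 3 := (v.2, (v.1.val : ZMod 3))

theorem idx_inj {u v v' : Pos r k} (h : Nb u v) (h' : Nb u v') (e : idx v = idx v') : v = v' := by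
  have e1 : v.2 = v'.2 := congrArg Prod.fst e
  have e2 : (v.1.val : ZMod 3) = (v'.1.val : ZMod 3) := congrArg Prod.snd e
  rw [ZMod.natCast_eq_natCast_iff'] at e2
  have h1 := h.2.1
  have h2 := h.2.2
  have h3 := h'.2.1
  have h4 := h'.2.2
  exact Prod.ext (Fin.ext (by omega)) e1

/-- The neighbours of a position. -/
def nbs (u : Pos r k) : Finset (Pos r k) := univ.filter (Nb u)

theorem mem_nbs {u v : Pos r k} : v ∈ nbs u ↔ Nb u v := by simp [nbs]

/-- The indicator of the position `o`. -/
def chi (o u : Pos r k) : ZMod 2 := if u = o then 1 else 0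

/-- The view `a` has the right parity at `u`. -/
def Par (o u : Pos r k) (a : Alph k) : Prop := ∑ v ∈ nbs u, a (idx v) = chi o u

/-- The views `a` at `u` and `a'` at `v` have the right parity and agree on the edge `uv`. -/
def Compat (o u : Pos r k) (a : Alph k) (v : Pos r k) (a' : Alph k) : Prop :=
  Par o u a ∧ Par o v a' ∧ a (idx v) = a' (idx u)

theorem Compat.symm {o u v : Pos r k} {a a' : Alph k} (h : Compat o u a v a') :
    Compat o v a' u a := ⟨h.2.1, h.1, h.2.2.symm⟩

theorem sum_symm (t : Pos r k → Pos r k → ZMod 2) (ht : ∀ u v, Nb u v → t u v = t v u) :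
    ∑ u, ∑ v ∈ nbs u, t u v = 0 := by
  rw [← Finset.sum_sigma (univ : Finset (Pos r k)) (fun u => nbs u) (fun p => t p.1 p.2)]
  refine Finset.sum_involution (fun p _ => ⟨p.2, p.1⟩) ?_ ?_ ?_ ?_
  · intro p hp
    have h : Nb p.1 p.2 := mem_nbs.1 (Finset.mem_sigma.1 hp).2
    rw [← ht _ _ h]
    exact CharTwo.add_self_eq_zero _
  · intro p hp _ h
    have h' : Nb p.1 p.2 := mem_nbs.1 (Finset.mem_sigma.1 hp).2
    exact h'.1 (congrArg Sigma.fst h).symm
  · intro p hp
    have h : Nb p.1 p.2 := mem_nbs.1 (Finset.mem_sigma.1 hp).2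
    exact Finset.mem_sigma.2 ⟨mem_univ _, mem_nbs.2 h.symm⟩
  · intro p _
    rfl

/-- The constraint problem is unsatisfiable. -/
theorem not_all_compat (hk : 2 ≤ k) (o : Pos r k) (z : Pos r k → Alph k) :
    ¬ ∀ u v, Nb u v → Compat o u (z u) v (z v) := by
  intro h
  have hpar : ∀ u, Par o u (z u) := by
    intro u
    obtain ⟨c, hc⟩ : ∃ c : Fin k, c ≠ u.2 := by
      have : Nontrivial (Fin k) := Fin.nontrivial_iff_two_le.2 hk
      exact exists_ne u.2
    have : Nb u (u.1, c) := ⟨fun e => hc (congrArg Prod.snd e).symm, by simp, by simp⟩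
    exact (h _ _ this).1
  have h0 := sum_symm (fun u v => z u (idx v)) (fun u v huv => (h u v huv).2.2)
  have h1 : ∑ u, ∑ v ∈ nbs u, z u (idx v) = ∑ u : Pos r k, chi o u :=
    Finset.sum_congr rfl fun u _ => hpar u
  rw [h1] at h0
  simp [chi] at h0

/-- The views `z` on `S` come from an edge labelling whose only violated position is `v₀`. -/
def HighAt (o : Pos r k) (S : Finset (Pos r k)) (z : Pos r k → Alph k) (v₀ : Pos r k) : Prop :=
  v₀ ∉ S ∧ ∃ t : Pos r k → Pos r k → ZMod 2, (∀ u v, t u v = t v u) ∧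
    (∀ u ∈ S, ∀ v, Nb u v → z u (idx v) = t u v) ∧
    ∀ u, ∑ v ∈ nbs u, t u v = chi o u + chi v₀ u

theorem highAt_empty (o : Pos r k) (z : Pos r k → Alph k) : HighAt o ∅ z o :=
  ⟨by simp, fun _ _ => 0, fun _ _ => rfl, by simp, fun u => by
    simp [CharTwo.add_self_eq_zero]⟩

theorem HighAt.mono {o v₀ : Pos r k} {S S' : Finset (Pos r k)} {z z' : Pos r k → Alph k}
    (h : HighAt o S z v₀) (hS : S' ⊆ S) (hz : ∀ u ∈ S', z' u = z u) : HighAt o S' z' v₀ := by
  obtain ⟨h0, t, h1, h2, h3⟩ := h
  exact ⟨fun hv => h0 (hS hv), t, h1, fun u hu v huv => by rw [hz u hu, h2 u (hS hu) v huv], h3⟩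

theorem HighAt.compat {o v₀ u v : Pos r k} {S : Finset (Pos r k)} {z : Pos r k → Alph k}
    (h : HighAt o S z v₀) (hu : u ∈ S) (hv : v ∈ S) (huv : Nb u v) :
    Compat o u (z u) v (z v) := by
  obtain ⟨h0, t, h1, h2, h3⟩ := h
  have par : ∀ a ∈ S, Par o a (z a) := by
    intro a ha
    have hne : a ≠ v₀ := fun e => h0 (e ▸ ha)
    have := h3 a
    rw [show chi v₀ a = 0 by simp [chi, hne], add_zero] at this
    rw [Par, ← this]
    exact Finset.sum_congr rfl fun b hb => h2 a ha b (mem_nbs.1 hb)
  exact ⟨par u hu, par v hv, by rw [h2 u hu v huv, h2 v hv u huv.symm, h1]⟩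

theorem HighAt.move {o u v : Pos r k} {S : Finset (Pos r k)} {z : Pos r k → Alph k}
    (h : HighAt o S z u) (huv : Nb u v) (hv : v ∉ S) : HighAt o S z v := by
  obtain ⟨h0, t, h1, h2, h3⟩ := h
  refine ⟨hv, fun a b => t a b + (chi u a * chi v b + chi v a * chi u b), ?_, ?_, ?_⟩
  · intro a b
    simp only
    rw [h1 a b]
    ring
  · intro a ha b hab
    have e1 : chi u a = 0 := by
      have : a ≠ u := fun e => h0 (e ▸ ha)
      simp [chi, this]
    have e2 : chi v a = 0 := by
      have : a ≠ v := fun e => hv (e ▸ ha)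
      simp [chi, this]
    simp only
    rw [h2 a ha b hab, e1, e2]
    ring
  · intro a
    have e1 : ∑ b ∈ nbs a, chi u a * chi v b = chi u a := by
      by_cases hau : a = u
      · subst hau
        simp [chi, mem_nbs, huv]
      · simp [chi, hau]
    have e2 : ∑ b ∈ nbs a, chi v a * chi u b = chi v a := by
      by_cases hav : a = v
      · subst hav
        simp [chi, mem_nbs, huv.symm]
      · simp [chi, hav]
    rw [Finset.sum_add_distrib, Finset.sum_add_distrib, h3 a, e1, e2]
    have := CharTwo.add_self_eq_zero (chi u a)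
    linear_combination this

theorem HighAt.move' {o u v : Pos r k} {S : Finset (Pos r k)} {z : Pos r k → Alph k}
    (h : HighAt o S z u) (huv : Near u.1 v.1) (hv : v ∉ S) : HighAt o S z v := by
  by_cases e : u = v
  · exact e ▸ h
  · exact h.move ⟨e, huv⟩ hv

/-- The positions in the layers `p ≤ i < q`. -/
def region (r k p q : ℕ) : Finset (Pos r k) := univ.filter fun v => p ≤ v.1.val ∧ v.1.val < q

theorem mem_region {p q : ℕ} {v : Pos r k} :
    v ∈ region r k p q ↔ p ≤ v.1.val ∧ v.1.val < q := by simp [region]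

theorem exists_free {p q : ℕ} {S : Finset (Pos r k)} (hS : (S ∩ region r k p q).card < k)
    (i : Fin r) (h1 : p ≤ i.val) (h2 : i.val < q) : ∃ c, (i, c) ∉ S := by
  by_contra hc
  push Not at hc
  have : (univ.image fun c : Fin k => ((i, c) : Pos r k)) ⊆ S ∩ region r k p q := by
    intro v hv
    obtain ⟨c, -, rfl⟩ := Finset.mem_image.1 hv
    exact Finset.mem_inter.2 ⟨hc c, mem_region.2 ⟨h1, h2⟩⟩
  have h3 := Finset.card_le_card this
  rw [Finset.card_image_of_injective _ (fun a b e => congrArg Prod.snd e)] at h3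
  simp at h3
  omega

/-- The violated position can be taken in the region `P`. -/
def High (o : Pos r k) (P S : Finset (Pos r k)) (z : Pos r k → Alph k) : Prop :=
  ∃ v₀ ∈ P, HighAt o S z v₀

theorem High.mono {o : Pos r k} {P P' S S' : Finset (Pos r k)} {z z' : Pos r k → Alph k}
    (h : High o P S z) (hP : P ⊆ P') (hS : S' ⊆ S) (hz : ∀ u ∈ S', z' u = z u) :
    High o P' S' z' := by
  obtain ⟨v, hv, h⟩ := h
  exact ⟨v, hP hv, h.mono hS hz⟩

/-- The violated position can be moved to any layer of the region. -/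
theorem High.layer {o : Pos r k} {p q : ℕ} {S : Finset (Pos r k)} {z : Pos r k → Alph k}
    (h : High o (region r k p q) S z) (hS : (S ∩ region r k p q).card < k)
    (i : Fin r) (h1 : p ≤ i.val) (h2 : i.val < q) : ∃ c, HighAt o S z (i, c) := by
  obtain ⟨v, hv, h⟩ := h
  rw [mem_region] at hv
  have key : ∀ n : ℕ, ∀ j : Fin r, p ≤ j.val → j.val < q →
      (j.val = v.1.val + n ∨ j.val + n = v.1.val) → ∃ c, HighAt o S z (j, c) := by
    intro n
    induction n with
    | zero =>
      intro j _ _ hj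
      have : j = v.1 := Fin.ext (by omega)
      exact ⟨v.2, this ▸ h⟩
    | succ n ih =>
      intro j hj1 hj2 hj
      obtain ⟨c, hc⟩ := exists_free hS j hj1 hj2
      rcases hj with hj | hj
      · obtain ⟨c', hc'⟩ := ih ⟨j.val - 1, by omega⟩ (by simp; omega) (by simp; omega)
          (Or.inl (by simp; omega))
        exact ⟨c, hc'.move' ⟨by simp; omega, by simp; omega⟩ hc⟩
      · obtain ⟨c', hc'⟩ := ih ⟨j.val + 1, by have := v.1.2; omega⟩ (by simp; omega)
          (by simp; omega) (Or.inr (by simp; omega))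
        exact ⟨c, hc'.move' ⟨by simp, by simp; omega⟩ hc⟩
  rcases le_total i.val v.1.val with hle | hle
  · exact key (v.1.val - i.val) i h1 h2 (Or.inr (by omega))
  · exact key (i.val - v.1.val) i h1 h2 (Or.inl (by omega))

theorem High.shrink {o : Pos r k} {p q p' q' : ℕ} {S : Finset (Pos r k)} {z : Pos r k → Alph k}
    (h : High o (region r k p q) S z) (hS : (S ∩ region r k p q).card < k)
    (h1 : p ≤ p') (h2 : p' < q') (h3 : q' ≤ q) (h4 : q ≤ r) :
    High o (region r k p' q') S z := by
  obtain ⟨c, hc⟩ := h.layer hS ⟨p', by omega⟩ h1 (by simp; omega)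
  exact ⟨_, mem_region.2 ⟨le_rfl, h2⟩, hc⟩

/-- A high assignment extends to any larger set that is small inside the region. -/
theorem High.extend {o : Pos r k} {p q : ℕ} {I S : Finset (Pos r k)} {z : Pos r k → Alph k}
    (h : High o (region r k p q) I z) (hIS : I ⊆ S) (hS : (S ∩ region r k p q).card < k) :
    ∃ π : Pos r k → Alph k, (∀ u ∈ I, π u = z u) ∧ High o (region r k p q) S π := by
  classical
  obtain ⟨v, hv, h⟩ := h
  obtain ⟨c, hc⟩ := exists_free hS v.1 (mem_region.1 hv).1 (mem_region.1 hv).2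
  have h' : HighAt o I z (v.1, c) := h.move' ⟨by simp, by simp⟩ fun e => hc (hIS e)
  obtain ⟨-, t, h1, h2, h3⟩ := h'
  let view : Pos r k → Alph k := fun u a =>
    if hh : ∃ b, Nb u b ∧ idx b = a then t u hh.choose else 0
  have hview : ∀ u b, Nb u b → view u (idx b) = t u b := by
    intro u b hub
    have hh : ∃ b', Nb u b' ∧ idx b' = idx b := ⟨b, hub, rfl⟩
    simp only [view, dif_pos hh]
    rw [idx_inj hh.choose_spec.1 hub hh.choose_spec.2]
  refine ⟨fun u => if u ∈ I then z u else view u, fun u hu => if_pos hu, (v.1, c),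
    mem_region.2 (mem_region.1 hv :), hc, t, h1, ?_, h3⟩
  intro u _ b hub
  by_cases hu : u ∈ I
  · simp only [if_pos hu]
    exact h2 u hu b hub
  · simp only [if_neg hu]
    exact hview u b hub

end Pool.Agent.P.MP_838544_lc
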